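import Mathlib
set_option autoImplicit false
namespace Pool.Agent.H.Wien
open Complex

/-- real absolutely summable sequences on the integers -/
abbrev A := lp (fun _ : ℤ => ℝ) 1

theorem sm (a : A) : Summable fun n => ‖a n‖ := by
  simpa using (lp.hasSum_norm (by simp) a).summable

theorem nm (a : A) : ‖a‖ = ∑' n, ‖a n‖ := by
  simpa using lp.norm_eq_tsum_rpow (by simp) a

noncomputable def mk (f : ℤ → ℝ) (h : Summable fun n => ‖f n‖) : A :=
  ⟨f, memℓp_gen (by simpa using h)⟩

@[simp] theorem mk_apply (f : ℤ → ℝ) (h : Summable fun n => ‖f n‖) (n : ℤ) : mk f h n = f n := rfl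

theorem mul_sm {α : ℤ → ℝ} {C : ℝ} (h : ∀ n, |α n| ≤ C) (a : A) :
    Summable fun n => ‖α n * a n‖ :=
  Summable.of_nonneg_of_le (fun _ => norm_nonneg _) (fun n => by
    rw [norm_mul]; exact mul_le_mul_of_nonneg_right (h n) (norm_nonneg _)) ((sm a).mul_left C)

/-- multiplier -/
noncomputable def mul (α : ℤ → ℝ) (h : ∃ C, ∀ n, |α n| ≤ C) : A →L[ℝ] A :=
  LinearMap.mkContinuousOfExistsBound
    { toFun := fun a => mk (fun n => α n * a n) (mul_sm h.choose_spec a)
      map_add' := fun a b => by ext n; simp [mul_add]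
      map_smul' := fun c a => by ext n; simp; ring } ⟨h.choose, fun a => by
    rw [nm, nm a, ← tsum_mul_left]
    refine (mul_sm h.choose_spec a).tsum_le_tsum (fun n => ?_) ((sm a).mul_left _)
    change ‖α n * a n‖ ≤ _
    rw [norm_mul]; exact mul_le_mul_of_nonneg_right (h.choose_spec n) (norm_nonneg _)⟩

@[simp] theorem mul_apply (α : ℤ → ℝ) (h : ∃ C, ∀ n, |α n| ≤ C) (a : A) (n : ℤ) :
    mul α h a n = α n * a n := rfl

/-- reflection -/
noncomputable def rf : A →L[ℝ] A :=
  LinearMap.mkContinuous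
    { toFun := fun a => mk (fun n => a (-n)) ((Equiv.neg ℤ).summable_iff.2 (sm a))
      map_add' := fun a b => by ext n; simp
      map_smul' := fun c a => by ext n; simp } 1 fun a => by
    rw [nm, nm a, one_mul]
    exact le_of_eq ((Equiv.neg ℤ).tsum_eq fun n => ‖a n‖)

@[simp] theorem rf_apply (a : A) (n : ℤ) : rf a n = a (-n) := rfl

def sh : ℤ × ℤ ≃ ℤ × ℤ where
  toFun p := (p.2, p.1 - p.2)
  invFun p := (p.1 + p.2, p.1)
  left_inv p := by simp
  right_inv p := by simp

theorem cv_sm2 (a b : A) : Summable fun p : ℤ × ℤ => ‖a p.2 * b (p.1 - p.2)‖ := by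
  have := sh.summable_iff.2 ((sm a).mul_norm (sm b))
  exact this

theorem cv_le (a b : A) (n : ℤ) : ‖∑' k, a k * b (n - k)‖ ≤ ∑' k, ‖a k * b (n - k)‖ :=
  norm_tsum_le_tsum_norm ((cv_sm2 a b).prod_factor n)

theorem cv_sm (a b : A) : Summable fun n => ‖∑' k, a k * b (n - k)‖ :=
  Summable.of_nonneg_of_le (fun _ => norm_nonneg _) (cv_le a b) (cv_sm2 a b).prod

theorem cv_sm1 (a b : A) (n : ℤ) : Summable fun k => a k * b (n - k) :=
  ((cv_sm2 a b).prod_factor n).of_norm

/-- convolution -/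
noncomputable def cv : A →L[ℝ] A →L[ℝ] A :=
  LinearMap.mkContinuous₂ (LinearMap.mk₂ ℝ (fun a b => mk (fun n => ∑' k, a k * b (n - k))
    (cv_sm a b))
    (fun a a' b => by
      ext n; simp [add_mul, (cv_sm1 a b n).tsum_add (cv_sm1 a' b n)])
    (fun c a b => by ext n; simp [mul_assoc, tsum_mul_left])
    (fun a b b' => by
      ext n; simp [mul_add, (cv_sm1 a b n).tsum_add (cv_sm1 a b' n)])
    (fun c a b => by ext n; simp [mul_left_comm _ c, tsum_mul_left])) 1 fun a b => by
    rw [nm, one_mul, nm a, nm b]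
    refine ((cv_sm a b).tsum_le_tsum (cv_le a b) (cv_sm2 a b).prod).trans (le_of_eq ?_)
    rw [← (cv_sm2 a b).tsum_prod, tsum_mul_tsum_of_summable_norm (sm a).norm (sm b).norm,
      ← sh.tsum_eq fun z : ℤ × ℤ => ‖a z.1‖ * ‖b z.2‖]
    simp [sh]

theorem cv_apply (a b : A) (n : ℤ) : cv a b n = ∑' k, a k * b (n - k) := rfl

noncomputable def ex (n : ℤ) (s : ℝ) : ℂ := exp (n * s * I)

theorem norm_ex (n : ℤ) (s : ℝ) : ‖ex n s‖ = 1 := by
  have : ex n s = exp (((n * s : ℝ) : ℂ) * I) := by simp [ex]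
  rw [this, norm_exp_ofReal_mul_I]

theorem ex_add (n k : ℤ) (s : ℝ) : ex (n + k) s = ex n s * ex k s := by
  simp only [ex, ← exp_add]; congr 1; push_cast; ring

theorem ex_add' (n : ℤ) (s t : ℝ) : ex n (s + t) = ex n t * ex n s := by
  simp only [ex, ← exp_add]; congr 1; push_cast; ring

theorem ex_conj (n : ℤ) (s : ℝ) : (starRingEnd ℂ) (ex n s) = ex (-n) s := by
  simp [ex, ← exp_conj]

theorem ex_deriv (n : ℤ) (s : ℝ) : HasDerivAt (ex n) (n * I * ex n s) s := by
  have := (((hasDerivAt_id s).ofReal_comp.const_mul (n : ℂ)).mul_const I).cexp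
  refine this.congr_deriv ?_
  simp [ex]; ring

theorem ev_sm (a : A) (s : ℝ) : Summable fun n => ‖(a n : ℂ) * ex n s‖ := by
  simpa [norm_ex] using sm a

/-- evaluation of the Fourier series -/
noncomputable def ev (s : ℝ) : A →L[ℝ] ℂ :=
  LinearMap.mkContinuous
    { toFun := fun a => ∑' n, (a n : ℂ) * ex n s
      map_add' := fun a b => by
        simp [add_mul, (ev_sm a s).of_norm.tsum_add (ev_sm b s).of_norm]
      map_smul' := fun c a => by simp [mul_assoc, tsum_mul_left] } 1 fun a => by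
    rw [one_mul, nm]
    refine (norm_tsum_le_tsum_norm (ev_sm a s)).trans (le_of_eq ?_)
    simp [norm_ex]

theorem ev_apply (s : ℝ) (a : A) : ev s a = ∑' n, (a n : ℂ) * ex n s := rfl

theorem ev_le (s : ℝ) (a : A) : ‖ev s a‖ ≤ ‖a‖ := by
  simpa using (ev s).le_of_opNorm_le (LinearMap.mkContinuous_norm_le _ zero_le_one _) a

theorem ev_cv (s : ℝ) (a b : A) : ev s (cv a b) = ev s a * ev s b := by
  rw [ev_apply, ev_apply, ev_apply, tsum_mul_tsum_of_summable_norm (ev_sm a s) (ev_sm b s),
    ← sh.tsum_eq]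
  have h : Summable fun p : ℤ × ℤ => ((a p.2 * b (p.1 - p.2) : ℝ) : ℂ) * ex p.1 s := by
    refine Summable.of_norm ?_
    simpa [norm_ex] using cv_sm2 a b
  have e : ∀ p : ℤ × ℤ, ((a (sh p).1 : ℂ) * ex (sh p).1 s * ((b (sh p).2 : ℂ) * ex (sh p).2 s)) =
      ((a p.2 * b (p.1 - p.2) : ℝ) : ℂ) * ex p.1 s := fun p => by
    have : ex p.1 s = ex p.2 s * ex (p.1 - p.2) s := by rw [← ex_add]; congr 1; ring
    rw [this]; simp [sh]; ring
  simp only [e]
  rw [h.tsum_prod]
  refine tsum_congr fun n => ?_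
  rw [cv_apply, ofReal_tsum, ← tsum_mul_right]

theorem ev_rf (s : ℝ) (a : A) : ev s (rf a) = (starRingEnd ℂ) (ev s a) := by
  rw [ev_apply, ev_apply, conj_tsum, ← (Equiv.neg ℤ).tsum_eq]
  refine tsum_congr fun n => ?_
  simp [ex_conj]

theorem ev_single (s : ℝ) (n : ℤ) : ev s (lp.single 1 n (1 : ℝ)) = ex n s := by
  rw [ev_apply, tsum_eq_single n]
  · simp
  · intro k hk; simp [lp.single_apply, hk]

theorem ev_deriv {a d : A} (h : ∀ n, d n = n * a n) (s : ℝ) :
    HasDerivAt (fun s => ev s a) (I * ev s d) s := by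
  have := hasDerivAt_tsum (𝕜 := ℝ) (g := fun n s => (a n : ℂ) * ex n s)
    (g' := fun n s => I * ((d n : ℂ) * ex n s)) (sm d) (fun n y => by
      refine ((ex_deriv n y).const_mul _).congr_deriv ?_
      rw [h]; push_cast; ring) (fun n y => by simp [norm_ex]) (y₀ := 0) (ev_sm a 0).of_norm s
  rw [tsum_mul_left] at this
  exact this

theorem ev_per (s : ℝ) (a : A) : ev (s + 2 * Real.pi) a = ev s a := by
  refine tsum_congr fun n => ?_
  rw [ex_add']
  have : ex n (2 * Real.pi) = 1 := by
    rw [← exp_int_mul_two_pi_mul_I n, ex]; congr 1; push_cast; ring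
  rw [this, one_mul]

/-- a multiplier which is a combination of shifts -/
theorem ev_shift {α : ℤ → ℝ} (h : ∃ C, ∀ n, |α n| ≤ C) {c x y z : ℂ} {θ : ℝ}
    (e : ∀ n, c * α n = x + y * ex n (-θ) + z * ex n θ) (a : A) (s : ℝ) :
    c * ev s (mul α h a) = x * ev s a + y * ev (s - θ) a + z * ev (s + θ) a := by
  simp only [ev_apply, ← tsum_mul_left]
  rw [← ((ev_sm a s).of_norm.mul_left x).tsum_add ((ev_sm a _).of_norm.mul_left y),
    ← (((ev_sm a s).of_norm.mul_left x).add ((ev_sm a _).of_norm.mul_left y)).tsum_add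
      ((ev_sm a _).of_norm.mul_left z)]
  refine tsum_congr fun n => ?_
  rw [sub_eq_add_neg, ex_add', ex_add', mul_apply]
  push_cast
  linear_combination (a n * ex n s) * e n

noncomputable def th : ℝ := 2 * Real.pi / 3
noncomputable def c3 : ℝ := √3
noncomputable def om : ℂ := ⟨-1 / 2, c3 / 2⟩
noncomputable def omb : ℂ := ⟨-1 / 2, -c3 / 2⟩

theorem c3_sq : c3 ^ 2 = 3 := Real.sq_sqrt (by norm_num)
theorem c3_lo : 1732 / 1000 < c3 := Real.lt_sqrt_of_sq_lt (by norm_num)
theorem c3_hi : c3 < 17321 / 10000 := (Real.sqrt_lt' (by norm_num)).2 (by norm_num)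

def tri {R : Type*} (x y z : R) (n : ℤ) : R := if n % 3 = 0 then x else if n % 3 = 1 then y else z

theorem tri_bd (x y z : ℝ) : ∃ C, ∀ n, |tri x y z n| ≤ C :=
  ⟨|x| + |y| + |z|, fun n => by
    have := abs_nonneg x; have := abs_nonneg y; have := abs_nonneg z
    unfold tri; split_ifs <;> linarith⟩

theorem ex_one_th : ex 1 th = om := by
  have e : ex 1 th = exp ((th : ℂ) * I) := by simp [ex]
  have h : th = Real.pi - Real.pi / 3 := by unfold th; ring
  rw [e]
  apply Complex.ext
  · rw [exp_ofReal_mul_I_re, h, Real.cos_pi_sub, Real.cos_pi_div_three]; simp [om]; norm_num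
  · rw [exp_ofReal_mul_I_im, h, Real.sin_pi_sub, Real.sin_pi_div_three]; simp [om, c3]

theorem om_sq : om * om = omb := by
  have := c3_sq
  apply Complex.ext <;> simp [om, omb] <;> nlinarith

theorem om_omb : om * omb = 1 := by
  have := c3_sq
  apply Complex.ext <;> simp [om, omb] <;> nlinarith

theorem omb_sq : omb * omb = om := by
  linear_combination (-omb) * om_sq + om * om_omb

theorem om_add : om + omb = -1 := by apply Complex.ext <;> simp [om, omb] <;> ring
theorem om_sub : om - omb = I * c3 := by apply Complex.ext <;> simp [om, omb] <;> ring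
theorem om_conj : (starRingEnd ℂ) om = omb := by apply Complex.ext <;> simp [om, omb]; ring
theorem omb_conj : (starRingEnd ℂ) omb = om := by apply Complex.ext <;> simp [om, omb]; ring

theorem ex_th (n : ℤ) : ex n th = tri 1 om omb n := by
  have h3 : ∀ k : ℤ, ex (3 * k) th = 1 := fun k => by
    rw [← exp_int_mul_two_pi_mul_I k, ex, th]; congr 1; push_cast; ring
  have e : ex n th = ex (n % 3) th := by
    conv_lhs => rw [← Int.mul_ediv_add_emod n 3, ex_add, h3, one_mul]
  rw [e]
  unfold tri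
  split_ifs with h1 h2
  · rw [h1]; simp [ex]
  · rw [h2, ex_one_th]
  · rw [show n % 3 = 1 + 1 by omega, ex_add, ex_one_th, om_sq]

theorem ex_nth (n : ℤ) : ex n (-th) = tri 1 omb om n := by
  have : ex n (-th) = (starRingEnd ℂ) (ex n th) := by rw [ex_conj]; simp [ex]
  rw [this, ex_th]
  unfold tri
  split_ifs <;> simp [om_conj, omb_conj]

noncomputable def sg : A →L[ℝ] A := mul (tri c3 0 (-c3)) (tri_bd _ _ _)
noncomputable def ta : A →L[ℝ] A := mul (tri 0 c3 (-c3)) (tri_bd _ _ _)
noncomputable def p0 : A →L[ℝ] A := mul (tri 3 0 0) (tri_bd _ _ _)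
noncomputable def p1 : A →L[ℝ] A := mul (tri 0 3 0) (tri_bd _ _ _)

theorem ev_sg (a : A) (s : ℝ) : I * ev s (sg a) = om * ev (s - th) a - omb * ev (s + th) a := by
  have := ev_shift (tri_bd c3 0 (-c3)) (c := I) (x := 0) (y := om) (z := -omb) (θ := th)
    (fun n => by
      rw [ex_th, ex_nth]; unfold tri
      split_ifs <;> push_cast
      · linear_combination -om_sub
      · ring
      · linear_combination om_sub - om_sq + omb_sq) a s
  rw [sg, this]; ring

theorem ev_ta (a : A) (s : ℝ) : -I * ev s (ta a) = ev (s - th) a - ev (s + th) a := by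
  have := ev_shift (tri_bd 0 c3 (-c3)) (c := -I) (x := 0) (y := 1) (z := -1) (θ := th)
    (fun n => by
      rw [ex_th, ex_nth]; unfold tri
      split_ifs <;> push_cast
      · ring
      · linear_combination om_sub
      · linear_combination -om_sub) a s
  rw [ta, this]; ring

theorem ev_p0 (a : A) (s : ℝ) : ev s (p0 a) = ev s a + ev (s - th) a + ev (s + th) a := by
  have := ev_shift (tri_bd 3 0 0) (c := 1) (x := 1) (y := 1) (z := 1) (θ := th)
    (fun n => by
      rw [ex_th, ex_nth]; unfold tri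
      split_ifs <;> push_cast
      · ring
      · linear_combination -om_add
      · linear_combination -om_add) a s
  rw [one_mul] at this
  rw [p0, this]; ring

theorem ev_p1 (a : A) (s : ℝ) :
    ev s (p1 a) = ev s a + om * ev (s - th) a + omb * ev (s + th) a := by
  have := ev_shift (tri_bd 0 3 0) (c := 1) (x := 1) (y := om) (z := omb) (θ := th)
    (fun n => by
      rw [ex_th, ex_nth]; unfold tri
      split_ifs <;> push_cast
      · linear_combination -om_add
      · linear_combination -2 * om_omb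
      · linear_combination -om_add - om_sq - omb_sq) a s
  rw [one_mul] at this
  rw [p1, this]; ring

end Pool.Agent.H.Wien
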