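import Mathlib
import Pool.Agent.H.MP_7235ad_an.Wien
set_option autoImplicit false
namespace Pool.Agent.H.Wien
open Filter Topology

theorem graves {X : Type*} [NormedAddCommGroup X] [NormedSpace ℝ X] [CompleteSpace X]
    (Ψ : X × ℝ × ℝ × ℝ → X) (hΨ : ContDiff ℝ 1 Ψ) (L0 L1 L2 L3 : X → X)
    (l0 : ∀ y y' (t : ℝ), L0 (y + t • y') = L0 y + t • L0 y')
    (l1 : ∀ y y' (t : ℝ), L1 (y + t • y') = L1 y + t • L1 y')
    (l2 : ∀ y y' (t : ℝ), L2 (y + t • y') = L2 y + t • L2 y')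
    (l3 : ∀ y y' (t : ℝ), L3 (y + t • y') = L3 y + t • L3 y')
    (h0 : ∀ y κ ν, Ψ (y, κ, ν, 0) = κ ^ 2 • L2 y + κ • L1 y + L0 y + ν • L3 y) (y0 : X) (ν0 : ℝ)
    (hz : Ψ (y0, 1, ν0, 0) = 0)
    (hs : ∀ T, ∃ (y : X) (k n : ℝ), L2 y + L1 y + L0 y + ν0 • L3 y + k • ((2 : ℝ) • L2 y0 + L1 y0)
      + n • L3 y0 = T) {U : Set (X × ℝ × ℝ × ℝ)} (hU : U ∈ 𝓝 (y0, (1 : ℝ), ν0, (0 : ℝ))) :
    ∃ p ∈ U, Ψ p = 0 ∧ 0 < p.2.2.2 := by
  let Θ : X × ℝ × ℝ × ℝ → X × ℝ := fun p => (Ψ p, p.2.2.2)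
  have hΘ : ContDiff ℝ 1 Θ := hΨ.prodMk (by fun_prop)
  have hS := hΘ.contDiffAt.hasStrictFDerivAt (x := (y0, 1, ν0, 0)) one_ne_zero
  set D := fderiv ℝ Θ (y0, 1, ν0, 0)
  have line : ∀ h : X × ℝ × ℝ × ℝ,
      HasDerivAt (fun t : ℝ => Θ ((y0, 1, ν0, 0) + t • h)) (D h) 0 := fun h => by
    have h1 : HasDerivAt (fun t : ℝ => ((y0, 1, ν0, 0) : X × ℝ × ℝ × ℝ) + t • h) h 0 := by
      simpa using ((hasDerivAt_id (0 : ℝ)).smul_const h).const_add (y0, 1, ν0, 0)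
    exact HasFDerivAt.comp_hasDerivAt_of_eq (0 : ℝ) hS.hasFDerivAt h1 (by simp)
  have hD : ∀ T, ∃ h, D h = (T, 0) := fun T => by
    obtain ⟨y, k, n, e⟩ := hs T
    refine ⟨(y, k, n, 0), (line _).unique ?_⟩
    have d : ∀ a b : ℝ, HasDerivAt (fun t : ℝ => a + t * b) b 0 := fun a b => by
      simpa using ((hasDerivAt_id (0 : ℝ)).mul_const b).const_add a
    have d' : ∀ a b : X, HasDerivAt (fun t : ℝ => a + t • b) b 0 := fun a b => by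
      simpa using ((hasDerivAt_id (0 : ℝ)).smul_const b).const_add a
    have h2 := ((((((d 1 k).fun_pow 2).fun_smul (d' (L2 y0) (L2 y))).fun_add
      ((d 1 k).fun_smul (d' (L1 y0) (L1 y)))).fun_add (d' (L0 y0) (L0 y))).fun_add
      ((d ν0 n).fun_smul (d' (L3 y0) (L3 y)))).prodMk (hasDerivAt_const (0 : ℝ) (0 : ℝ))
    refine (h2.congr_deriv ?_).congr_of_eventuallyEq (Eventually.of_forall fun t => ?_)
    · rw [← e]; simp; module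
    · simp only [Θ, Prod.smul_mk, Prod.mk_add_mk, smul_eq_mul, mul_zero, add_zero, h0, l0, l1,
        l2, l3]
  have hE : (D (0, 0, 0, 1)).2 = 1 := by
    have h1 := (ContinuousLinearMap.snd ℝ X ℝ).hasFDerivAt.comp_hasDerivAt _ (line (0, 0, 0, 1))
    refine h1.unique ?_
    refine (hasDerivAt_id (0 : ℝ)).congr_of_eventuallyEq (Eventually.of_forall fun t => ?_)
    simp [Θ]
  have hr : D.range = ⊤ := by
    refine LinearMap.range_eq_top.2 fun q => ?_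
    obtain ⟨h, e⟩ := hD (q.1 - q.2 • (D (0, 0, 0, 1)).1)
    refine ⟨h + q.2 • (0, 0, 0, 1), ?_⟩
    change D _ = _
    rw [map_add, map_smul, e]
    ext
    · simp
    · simp [hE]
  have h1 : Θ '' U ∈ 𝓝 (Θ (y0, 1, ν0, 0)) := by
    rw [← hS.map_nhds_eq_of_surj hr]; exact image_mem_map hU
  have h2 : Θ (y0, 1, ν0, 0) = (0, 0) := by simp [Θ, hz]
  rw [h2] at h1
  have h3 : ∀ᶠ e in 𝓝[>] (0 : ℝ), ((0 : X), e) ∈ Θ '' U :=
    nhdsWithin_le_nhds ((Continuous.prodMk_right (0 : X)).continuousAt.preimage_mem_nhds h1)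
  obtain ⟨e, ⟨p, hp, e1⟩, he⟩ := (h3.and self_mem_nhdsWithin).exists
  refine ⟨p, hp, congrArg Prod.fst e1, ?_⟩
  have : p.2.2.2 = e := congrArg Prod.snd e1
  rw [this]; exact he

theorem one_sq_pos (n : ℤ) : (0 : ℝ) < 1 + (n : ℝ) ^ 2 := by positivity

noncomputable def J0 : A →L[ℝ] A := mul (fun n => 1 / (1 + (n : ℝ) ^ 2)) ⟨1, fun n => by
  rw [abs_of_pos (by positivity), div_le_one (one_sq_pos n)]; nlinarith [sq_nonneg (n : ℝ)]⟩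
noncomputable def J1 : A →L[ℝ] A := mul (fun n => n / (1 + (n : ℝ) ^ 2)) ⟨1, fun n => by
  rw [abs_div, abs_of_pos (one_sq_pos n), div_le_one (one_sq_pos n), ← sq_abs]
  nlinarith [sq_nonneg (|(n : ℝ)| - 1)]⟩
noncomputable def J2 : A →L[ℝ] A := mul (fun n => n ^ 2 / (1 + (n : ℝ) ^ 2)) ⟨1, fun n => by
  rw [abs_of_nonneg (by positivity), div_le_one (one_sq_pos n)]; linarith⟩

abbrev X4 := A × A × A × A
abbrev Y := X4 × ℝ × ℝ × ℝ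

section
variable (p : Y)
noncomputable def zA : A := p.1.2.1 + rf p.1.2.1
noncomputable def cub (e : ℝ) (v : A) : A := (3 : ℝ) • v + (3 * e) • cv v v + e ^ 2 • cv v (cv v v)
noncomputable def sqr (e : ℝ) (v : A) : A := (2 : ℝ) • v + e • cv v v
noncomputable def v3 : A := cub p.2.2.2 p.1.2.2.1
noncomputable def w3 : A := cub p.2.2.2 p.1.2.2.2
noncomputable def gA : A := p.1.1 + v3 p + p.2.2.2 • cv p.1.1 (v3 p)
noncomputable def hA : A := zA p + p.2.2.2 • cv (zA p) (v3 p)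
noncomputable def EA : A := sg p.1.1 + c3 • w3 p + p.2.2.2 • cv (sg p.1.1) (w3 p)
noncomputable def HA : A := ta (zA p) + p.2.2.2 • cv (ta (zA p)) (w3 p)
noncomputable def F1 : A :=
  (1 - p.2.2.1) • gA p + (c3 * p.2.2.1) • p1 (gA p) + (p.2.2.1 / 3) • sg (EA p)
noncomputable def F2 : A :=
  (1 - p.2.2.1) • hA p + (c3 * p.2.2.1) • p0 (hA p) + (p.2.2.1 / 3) • ta (HA p)
noncomputable def F2s : A := (1 / 2 : ℝ) • (F2 p + rf (F2 p))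
noncomputable def rA : A := p.1.1 + rf p.1.1 + p.2.2.2 • (cv p.1.1 (rf p.1.1) + cv (zA p) (zA p))
noncomputable def sA : A := c3 • (sg p.1.1 + rf (sg p.1.1)) +
  p.2.2.2 • (cv (sg p.1.1) (rf (sg p.1.1)) - cv (ta (zA p)) (ta (zA p)))
noncomputable def Psi : X4 :=
  (p.2.1 ^ 2 • J2 p.1.1 + (2 * p.2.1) • J1 p.1.1 + J0 p.1.1 - J0 (F1 p),
   p.2.1 ^ 2 • J2 (zA p) - J0 (F2s p) + (p.1.2.1 - rf p.1.2.1),
   sqr p.2.2.2 p.1.2.2.1 + rA p + p.2.2.2 • cv (sqr p.2.2.2 p.1.2.2.1) (rA p),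
   (3 : ℝ) • sqr p.2.2.2 p.1.2.2.2 + sA p + p.2.2.2 • cv (sqr p.2.2.2 p.1.2.2.2) (sA p))
end

@[fun_prop] theorem cd_cv {f g : Y → A} (hf : ContDiff ℝ 1 f) (hg : ContDiff ℝ 1 g) :
    ContDiff ℝ 1 fun p => cv (f p) (g p) := (cv.contDiff.comp hf).clm_apply hg

theorem cd_l (L : A →L[ℝ] A) {f : Y → A} (hf : ContDiff ℝ 1 f) :
    ContDiff ℝ 1 fun p => L (f p) := L.contDiff.comp hf

@[fun_prop] theorem cd_zA : ContDiff ℝ 1 zA := by unfold zA; fun_prop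
@[fun_prop] theorem cd_v3 : ContDiff ℝ 1 v3 := by unfold v3 cub; fun_prop
@[fun_prop] theorem cd_w3 : ContDiff ℝ 1 w3 := by unfold w3 cub; fun_prop
@[fun_prop] theorem cd_gA : ContDiff ℝ 1 gA := by unfold gA; fun_prop
@[fun_prop] theorem cd_hA : ContDiff ℝ 1 hA := by unfold hA; fun_prop
@[fun_prop] theorem cd_EA : ContDiff ℝ 1 EA := by unfold EA; fun_prop
@[fun_prop] theorem cd_HA : ContDiff ℝ 1 HA := by unfold HA; fun_prop
@[fun_prop] theorem cd_F1 : ContDiff ℝ 1 F1 := by unfold F1; fun_prop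
@[fun_prop] theorem cd_F2 : ContDiff ℝ 1 F2 := by unfold F2; fun_prop
@[fun_prop] theorem cd_F2s : ContDiff ℝ 1 F2s := by unfold F2s; fun_prop
@[fun_prop] theorem cd_rA : ContDiff ℝ 1 rA := by unfold rA; fun_prop
@[fun_prop] theorem cd_sA : ContDiff ℝ 1 sA := by unfold sA; fun_prop
theorem cd_Psi : ContDiff ℝ 1 Psi := by unfold Psi sqr; fun_prop

noncomputable def L2 (y : X4) : X4 := (J2 y.1, J2 (y.2.1 + rf y.2.1), 0, 0)
noncomputable def L1 (y : X4) : X4 := ((2 : ℝ) • J1 y.1, 0, 0, 0)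
noncomputable def L0 (y : X4) : X4 := (J0 y.1 - J0 (y.1 + (3 : ℝ) • y.2.2.1),
  -J0 (y.2.1 + rf y.2.1) + (y.2.1 - rf y.2.1), (2 : ℝ) • y.2.2.1 + y.1 + rf y.1,
  (6 : ℝ) • y.2.2.2 + c3 • (sg y.1 + rf (sg y.1)))
noncomputable def L3 (y : X4) : X4 :=
  (J0 (y.1 + (3 : ℝ) • y.2.2.1 - c3 • p1 (y.1 + (3 : ℝ) • y.2.2.1)
    - (1 / 3 : ℝ) • sg (sg y.1 + (3 * c3) • y.2.2.2)),
  J0 (y.2.1 + rf y.2.1 - c3 • p0 (y.2.1 + rf y.2.1) - (1 / 3 : ℝ) • ta (ta (y.2.1 + rf y.2.1))),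
  0, 0)

theorem tri_neg (x y z : ℝ) (n : ℤ) : tri x y z (-n) = tri x z y n := by
  unfold tri
  split_ifs <;> first | rfl | omega

theorem tri_cases (n : ℤ) : (n % 3 = 0 ∧ ∀ x y z : ℝ, tri x y z n = x) ∨
    (n % 3 = 1 ∧ ∀ x y z : ℝ, tri x y z n = y) ∨ (n % 3 = 2 ∧ ∀ x y z : ℝ, tri x y z n = z) := by
  unfold tri
  by_cases h0 : n % 3 = 0
  · exact Or.inl ⟨h0, fun _ _ _ => by simp [h0]⟩
  by_cases h1 : n % 3 = 1
  · exact Or.inr (Or.inl ⟨h1, fun _ _ _ => by simp [h1]⟩)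
  · exact Or.inr (Or.inr ⟨by omega, fun _ _ _ => by simp [h0, h1]⟩)

theorem Psi_zero (y : X4) (κ ν : ℝ) :
    Psi (y, κ, ν, 0) = κ ^ 2 • L2 y + κ • L1 y + L0 y + ν • L3 y := by
  refine Prod.ext ?_ (Prod.ext ?_ (Prod.ext ?_ ?_)) <;> ext n <;>
    simp [Psi, L0, L1, L2, L3, F1, F2, F2s, gA, hA, EA, HA, v3, w3, cub, sqr, rA, sA, zA, J0, J1,
      J2, p0, p1, sg, ta, tri_neg]
  · ring
  · rcases tri_cases n with ⟨-, h⟩ | ⟨-, h⟩ | ⟨-, h⟩ <;> simp only [h] <;> ring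
  · ring
  · ring

theorem l0 (y y' : X4) (t : ℝ) : L0 (y + t • y') = L0 y + t • L0 y' := by
  refine Prod.ext ?_ (Prod.ext ?_ (Prod.ext ?_ ?_)) <;> simp [L0] <;> module
theorem l1 (y y' : X4) (t : ℝ) : L1 (y + t • y') = L1 y + t • L1 y' := by
  refine Prod.ext ?_ (Prod.ext ?_ (Prod.ext ?_ ?_)) <;> simp [L1] <;> module
theorem l2 (y y' : X4) (t : ℝ) : L2 (y + t • y') = L2 y + t • L2 y' := by
  refine Prod.ext ?_ (Prod.ext ?_ (Prod.ext ?_ ?_)) <;> simp [L2] <;> module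
theorem l3 (y y' : X4) (t : ℝ) : L3 (y + t • y') = L3 y + t • L3 y' := by
  refine Prod.ext ?_ (Prod.ext ?_ (Prod.ext ?_ ?_)) <;> simp [L3] <;> module

end Pool.Agent.H.Wien
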