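import Mathlib
import Pool.Agent.H.MP_7235ad_an.Sys
set_option autoImplicit false
namespace Pool.Agent.H.Wien
open Filter Topology

noncomputable def M0 : ℝ := 1 / 9 + (3 * c3 + 1) / 26
noncomputable def nu0 : ℝ := 1 - M0
noncomputable def P0 : ℝ := 8 * (3 * c3 - 1) / 9
noncomputable def e1 : A := lp.single 1 1 (1 : ℝ)
noncomputable def em : A := lp.single 1 (-1) (1 : ℝ)
noncomputable def a0 : A := e1 - (3 * M0) • em
noncomputable def b0 : A := (1 / 2 : ℝ) • (e1 + em)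
noncomputable def y0 : X4 := (a0, b0, (1 / 2 : ℝ) • (0 - a0 - rf a0),
  (1 / 6 : ℝ) • (0 - c3 • (sg a0 + rf (sg a0))))

theorem P0_eq : M0 + 3 * c3 * nu0 = P0 := by
  unfold nu0 M0 P0; linear_combination (-9 / 26) * c3_sq
theorem PM : 9 * P0 * M0 = P0 + 8 := by unfold M0 P0; linear_combination (36 / 13) * c3_sq
theorem bM : (3 * c3 - 1) * (1 - 9 * M0) = -9 := by
  unfold M0; linear_combination (-81 / 26) * c3_sq
theorem P0_bd : 372 / 100 < P0 ∧ P0 < 374 / 100 := by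
  unfold P0; constructor <;> linarith [c3_lo, c3_hi]
theorem M0_bd : 349 / 1000 < M0 ∧ M0 < 350 / 1000 := by
  unfold M0; constructor <;> linarith [c3_lo, c3_hi]

theorem e1_apply (n : ℤ) : e1 n = if n = 1 then 1 else 0 := by
  simp [e1, lp.single_apply, Pi.single_apply]
theorem em_apply (n : ℤ) : em n = if n = -1 then 1 else 0 := by
  simp [em, lp.single_apply, Pi.single_apply]

noncomputable def pn (n : ℤ) : ℝ := ((n : ℝ) + 1) ^ 2 + tri (1 / 2) (P0 / 2) (1 / 2) n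
noncomputable def qn (n : ℤ) : ℝ := tri (3 / 2) (3 * P0 / 2) (3 * M0 / 2) n
noncomputable def gn (n : ℤ) : ℝ := (n : ℝ) ^ 2 - tri P0 1 1 n

noncomputable def LL (y : X4) : X4 := L2 y + L1 y + L0 y + nu0 • L3 y

/-- the inhomogeneous part coming from the two algebraic equations -/
noncomputable def rest (T3 T4 : A) : A :=
  J0 (M0 • ((3 / 2 : ℝ) • T3) + (c3 * nu0) • p1 ((3 / 2 : ℝ) • T3) + (nu0 / 3) • sg ((c3 / 2) • T4))

theorem LL_eq (a b T3 T4 : A) (n : ℤ) :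
    let y : X4 := (a, b, (1 / 2 : ℝ) • (T3 - a - rf a), (1 / 6 : ℝ) • (T4 - c3 • (sg a + rf (sg a))))
    (LL y).1 n = (pn n * a n + qn n * a (-n)) / (1 + (n : ℝ) ^ 2) - rest T3 T4 n ∧
    (LL y).2.1 n = gn n * (b n + b (-n)) / (1 + (n : ℝ) ^ 2) + (b n - b (-n)) ∧
    (LL y).2.2.1 n = T3 n ∧ (LL y).2.2.2 n = T4 n := by
  have h0 := (one_sq_pos n).ne'
  have hM : M0 = 1 - nu0 := by unfold nu0; ring
  have hP := P0_eq
  intro y
  refine ⟨?_, ?_, ?_, ?_⟩ <;>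
    simp [y, LL, L0, L1, L2, L3, rest, J0, J1, J2, p0, p1, sg, ta, tri_neg, pn, qn, gn]
  · rw [← hP, hM]
    rcases tri_cases n with ⟨-, h⟩ | ⟨-, h⟩ | ⟨-, h⟩ <;> simp only [h] <;> field_simp
    · linear_combination (6 * nu0 * a n * (c3 ^ 2 + 1) + 6 * nu0 * a (-n) * (c3 ^ 2 + 3)) * c3_sq
    · ring
    · linear_combination (6 * nu0 * a n * (c3 ^ 2 + 1)) * c3_sq
  · rw [← hP, hM]
    rcases tri_cases n with ⟨-, h⟩ | ⟨-, h⟩ | ⟨-, h⟩ <;> simp only [h] <;> field_simp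
    · ring
    · linear_combination (-nu0 * (b n + b (-n))) * c3_sq
    · linear_combination (-nu0 * (b n + b (-n))) * c3_sq
  · ring

theorem a0_apply (n : ℤ) : a0 n = if n = 1 then 1 else if n = -1 then -(3 * M0) else 0 := by
  simp only [a0, lp.coeFn_sub, lp.coeFn_smul, Pi.sub_apply, Pi.smul_apply, e1_apply, em_apply]
  split_ifs <;> first | omega | simp

theorem b0_apply (n : ℤ) : b0 n = if n = 1 then 1 / 2 else if n = -1 then 1 / 2 else 0 := by
  simp only [b0, lp.coeFn_add, lp.coeFn_smul, Pi.add_apply, Pi.smul_apply, e1_apply, em_apply]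
  split_ifs <;> first | omega | simp

theorem tri_one (x y z : ℝ) : tri x y z 1 = y := by simp [tri]
theorem tri_m1 (x y z : ℝ) : tri x y z (-1) = z := by simp [tri]
theorem tri_zero (x y z : ℝ) : tri x y z 0 = x := by simp [tri]

theorem hz : Psi (y0, 1, nu0, 0) = 0 := by
  have e : Psi (y0, 1, nu0, 0) = LL y0 := by rw [Psi_zero]; simp [LL]
  rw [e]
  refine Prod.ext ?_ (Prod.ext ?_ (Prod.ext ?_ ?_)) <;> ext n
  · refine (LL_eq a0 b0 0 0 n).1.trans ?_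
    by_cases h1 : n = 1
    · subst h1; simp [rest, a0_apply, pn, qn, tri_one]; linear_combination (-1 / 2) * PM
    by_cases h2 : n = -1
    · subst h2; simp [rest, a0_apply, pn, qn, tri_m1]; ring
    have h3 : -n ≠ 1 := by omega
    have h4 : -n ≠ -1 := by omega
    simp only [a0_apply, h1, h2, h3, h4, rest]; simp
  · refine (LL_eq a0 b0 0 0 n).2.1.trans ?_
    by_cases h1 : n = 1
    · subst h1; simp [b0_apply, gn, tri_one]
    by_cases h2 : n = -1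
    · subst h2; simp [b0_apply, gn, tri_m1]
    have h3 : -n ≠ 1 := by omega
    have h4 : -n ≠ -1 := by omega
    simp only [b0_apply, h1, h2, h3, h4]; simp
  · exact (LL_eq a0 b0 0 0 n).2.2.1
  · exact (LL_eq a0 b0 0 0 n).2.2.2

theorem K_eq (n : ℤ) :
    ((2 : ℝ) • L2 y0 + L1 y0).2.1 n = 2 * b0 n ∧ ((2 : ℝ) • L2 y0 + L1 y0).2.2 = 0 ∧
    (L3 y0).1 n = (if n = 1 then -9 / 4 else if n = -1 then -3 / 4 else 0) ∧
    (L3 y0).2.1 n = 0 ∧ (L3 y0).2.2 = 0 := by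
  refine ⟨?_, by simp [L1, L2], ?_, ?_, by simp [L3]⟩ <;>
    simp only [L1, L2, L3, y0, J0, J2, p0, p1, sg, ta] <;> by_cases h1 : n = 1
  · subst h1; simp [b0_apply]; norm_num
  · by_cases h2 : n = -1
    · subst h2; simp [b0_apply]; norm_num
    have h3 : -n ≠ 1 := by omega
    have h4 : -n ≠ -1 := by omega
    simp [-neg_eq_iff_eq_neg, b0_apply, h1, h2, h3, h4]
  · subst h1; simp [a0_apply, tri_one, tri_m1]; linear_combination (1 / 4) * bM
  · by_cases h2 : n = -1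
    · subst h2; simp [a0_apply, tri_one, tri_m1]
      linear_combination (-M0 / 4 * (c3 ^ 2 + 1)) * c3_sq
    have h3 : -n ≠ 1 := by omega
    have h4 : -n ≠ -1 := by omega
    simp [-neg_eq_iff_eq_neg, a0_apply, h1, h2, h3, h4]
  · subst h1; simp [b0_apply, tri_one]; linear_combination (-1 / 6) * c3_sq
  · by_cases h2 : n = -1
    · subst h2; simp [b0_apply, tri_m1]; linear_combination (-1 / 6) * c3_sq
    have h3 : -n ≠ 1 := by omega
    have h4 : -n ≠ -1 := by omega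
    simp [-neg_eq_iff_eq_neg, b0_apply, h1, h2, h3, h4]

noncomputable def Dn (n : ℤ) : ℝ := pn n * pn (-n) - qn n * qn (-n)

theorem sq_ge {n : ℤ} (h0 : n ≠ 0) (h1 : n ≠ 1) (h2 : n ≠ -1) : (4 : ℝ) ≤ (n : ℝ) ^ 2 := by
  have : (4 : ℤ) ≤ n ^ 2 := by
    rcases (by omega : 2 ≤ n ∨ n ≤ -2) with h | h <;> nlinarith
  exact_mod_cast this

theorem pq_bd (n : ℤ) : ((n : ℝ) + 1) ^ 2 + 1 / 2 ≤ pn n ∧ pn n ≤ 4 * (1 + (n : ℝ) ^ 2) ∧
    0 ≤ qn n ∧ qn n ≤ 6 ∧ qn n * qn (-n) ≤ 3 := by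
  have h1 := P0_bd
  have h2 := M0_bd
  have h3 := PM
  unfold pn qn
  rw [tri_neg]
  rcases tri_cases n with ⟨-, h⟩ | ⟨-, h⟩ | ⟨-, h⟩ <;> simp only [h] <;>
    refine ⟨?_, ?_, ?_, ?_, ?_⟩ <;> nlinarith [sq_nonneg ((n : ℝ) - 1), sq_nonneg (n : ℝ)]

theorem Dn_ge {n : ℤ} (h0 : n ≠ 0) (h1 : n ≠ 1) (h2 : n ≠ -1) :
    (1 + (n : ℝ) ^ 2) ^ 2 / 3 ≤ Dn n := by
  have h := sq_ge h0 h1 h2
  obtain ⟨a1, -, -, -, a2⟩ := pq_bd n
  obtain ⟨b1, -⟩ := pq_bd (-n)
  push_cast at b1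
  have h3 : (((n : ℝ) + 1) ^ 2 + 1 / 2) * ((-(n : ℝ) + 1) ^ 2 + 1 / 2) ≤ pn n * pn (-n) :=
    mul_le_mul a1 b1 (by positivity) (le_trans (by positivity) a1)
  unfold Dn
  nlinarith

noncomputable def al (n : ℤ) : ℝ := if n = 0 then 1 / 3 else if n = 1 then 0 else
  if n = -1 then -4 / (P0 - 1) else (1 + (n : ℝ) ^ 2) * pn (-n) / Dn n
noncomputable def be (n : ℤ) : ℝ := if n = 0 then 0 else if n = 1 then 0 else
  if n = -1 then 4 / (3 * (P0 - 1)) else -((1 + (n : ℝ) ^ 2) * qn n / Dn n)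
noncomputable def ga (n : ℤ) : ℝ := (1 + (n : ℝ) ^ 2) / gn n

theorem al_bd : ∃ C, ∀ n, |al n| ≤ C := ⟨12 + |-4 / (P0 - 1)|, fun n => by
  have := abs_nonneg (-4 / (P0 - 1))
  unfold al
  split_ifs with h0 h1 h2
  · rw [abs_of_pos (by norm_num)]; linarith
  · simp only [abs_zero]; linarith
  · linarith
  · have h3 := Dn_ge h0 h1 h2
    have h4 := one_sq_pos n
    have h5 : 0 < Dn n := lt_of_lt_of_le (by positivity) h3
    obtain ⟨b1, b2, -⟩ := pq_bd (-n)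
    have h6 : 0 ≤ pn (-n) := le_trans (by positivity) b1
    push_cast at b2
    rw [abs_of_nonneg (by positivity)]
    have : (1 + (n : ℝ) ^ 2) * pn (-n) / Dn n ≤ 12 := by
      rw [div_le_iff₀ h5]; nlinarith
    linarith⟩

theorem be_bd : ∃ C, ∀ n, |be n| ≤ C := ⟨18 + |4 / (3 * (P0 - 1))|, fun n => by
  have := abs_nonneg (4 / (3 * (P0 - 1)))
  unfold be
  split_ifs with h0 h1 h2
  · simp only [abs_zero]; linarith
  · simp only [abs_zero]; linarith
  · linarith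
  · have h3 := Dn_ge h0 h1 h2
    have h4 := one_sq_pos n
    have h5 : 0 < Dn n := lt_of_lt_of_le (by positivity) h3
    obtain ⟨-, -, b1, b2, -⟩ := pq_bd n
    rw [abs_neg, abs_of_nonneg (by positivity)]
    have : (1 + (n : ℝ) ^ 2) * qn n / Dn n ≤ 18 := by
      rw [div_le_iff₀ h5]; nlinarith [sq_nonneg (n : ℝ)]
    linarith⟩

theorem gn_ge {n : ℤ} (h0 : n ≠ 0) (h1 : n ≠ 1) (h2 : n ≠ -1) :
    (1 + (n : ℝ) ^ 2) / 2 ≤ gn n := by
  have h := sq_ge h0 h1 h2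
  have hP := P0_bd
  unfold gn
  rcases tri_cases n with ⟨h3, h4⟩ | ⟨-, h4⟩ | ⟨-, h4⟩ <;> simp only [h4]
  · have : (9 : ℤ) ≤ n ^ 2 := by
      rcases (by omega : 3 ≤ n ∨ n ≤ -3) with h | h <;> nlinarith
    have : (9 : ℝ) ≤ (n : ℝ) ^ 2 := by exact_mod_cast this
    linarith
  · linarith
  · linarith

theorem ga_bd : ∃ C, ∀ n, |ga n| ≤ C := ⟨2 + |ga 0| + |ga 1| + |ga (-1)|, fun n => by
  have := abs_nonneg (ga 0); have := abs_nonneg (ga 1); have := abs_nonneg (ga (-1))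
  by_cases h0 : n = 0
  · rw [h0]; linarith
  by_cases h1 : n = 1
  · rw [h1]; linarith
  by_cases h2 : n = -1
  · rw [h2]; linarith
  have h3 := gn_ge h0 h1 h2
  have h4 := one_sq_pos n
  have h5 : 0 < gn n := lt_of_lt_of_le (by positivity) h3
  have : ga n ≤ 2 := by unfold ga; rw [div_le_iff₀ h5]; linarith
  rw [abs_of_pos (a := ga n) (div_pos h4 h5)]
  linarith⟩

theorem gn_neg (n : ℤ) : gn (-n) = gn n := by
  unfold gn; rw [tri_neg]; push_cast; ring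

theorem surj (T : X4) : ∃ (y : X4) (k n : ℝ), L2 y + L1 y + L0 y + nu0 • L3 y
    + k • ((2 : ℝ) • L2 y0 + L1 y0) + n • L3 y0 = T := by
  obtain ⟨T1, T2, T3, T4⟩ := T
  set k : ℝ := (T2 1 + T2 (-1)) / 2 with hk
  set t : A := T1 - k • ((2 : ℝ) • L2 y0 + L1 y0).1 + rest T3 T4 with ht
  set a : A := mul al al_bd t + mul be be_bd (rf t) with ha
  set b : A := (1 / 4 : ℝ) • (mul ga ga_bd (T2 + rf T2) + (T2 - rf T2)) with hb
  have hP := P0_bd
  have hP1 : P0 - 1 ≠ 0 := by linarith [hP.1]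
  refine ⟨(a, b, (1 / 2 : ℝ) • (T3 - a - rf a), (1 / 6 : ℝ) • (T4 - c3 • (sg a + rf (sg a)))), k,
    (a (-1) - 4 * t (-1)) / 3, ?_⟩
  change LL _ + _ + _ = _
  refine Prod.ext ?_ (Prod.ext ?_ (Prod.ext ?_ ?_)) <;> ext n
  · have e1 := (LL_eq a b T3 T4 n).1
    have e2 := (K_eq n).2.2.1
    have e3 : T1 n = t n + k * ((2 : ℝ) • L2 y0 + L1 y0).1 n - rest T3 T4 n := by
      rw [ht]; simp only [lp.coeFn_add, lp.coeFn_sub, lp.coeFn_smul, Pi.add_apply, Pi.sub_apply,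
        Pi.smul_apply, smul_eq_mul]; ring
    have e4 : ∀ n, a n = al n * t n + be n * t (-n) := fun n => by rw [ha]; simp
    simp only [Prod.fst_add, Prod.smul_fst, lp.coeFn_add, lp.coeFn_smul, Pi.add_apply,
      Pi.smul_apply, smul_eq_mul] at e1 e2 e3 ⊢
    rw [e1, e2, e3]
    suffices (pn n * a n + qn n * a (-n)) / (1 + (n : ℝ) ^ 2) + (a (-1) - 4 * t (-1)) / 3 *
      (if n = 1 then -9 / 4 else if n = -1 then -3 / 4 else 0) = t n by linarith
    simp only [e4]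
    by_cases h0 : n = 0
    · subst h0; simp [al, be, pn, qn, tri_zero]; ring
    by_cases h1 : n = 1
    · subst h1; simp [al, be, pn, qn, tri_one]; field_simp; ring
    by_cases h2 : n = -1
    · subst h2; simp [al, be, pn, qn, tri_m1]; field_simp; ring
    have h3 : -n ≠ 1 := by omega
    have h4 : -n ≠ -1 := by omega
    have h5 : -n ≠ 0 := by omega
    have h6 : Dn n ≠ 0 := (lt_of_lt_of_le (by have := one_sq_pos n; positivity) (Dn_ge h0 h1 h2)).ne'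
    have h7 : Dn (-n) = Dn n := by unfold Dn; rw [neg_neg]; ring
    have h8 := (one_sq_pos n).ne'
    simp only [al, be, h0, h1, h2, h3, h4, h5, if_false, h7, neg_neg]
    push_cast
    field_simp
    unfold Dn
    ring
  · have e1 := (LL_eq a b T3 T4 n).2.1
    have e2 := (K_eq n).1
    have e3 := (K_eq n).2.2.2.1
    have e4 : ∀ n, b n = 1 / 4 * (ga n * (T2 n + T2 (-n)) + (T2 n - T2 (-n))) := fun n => by
      rw [hb]; simp; ring
    simp only [Prod.snd_add, Prod.smul_snd, Prod.fst_add, Prod.smul_fst, lp.coeFn_add,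
      lp.coeFn_smul, Pi.add_apply, Pi.smul_apply, smul_eq_mul] at e1 e2 e3 ⊢
    rw [e1, e2, e3]
    simp only [e4, neg_neg, ga, gn_neg, b0_apply]
    by_cases h1 : n = 1
    · subst h1; simp [gn, tri_one, hk]; ring
    by_cases h2 : n = -1
    · subst h2; simp [gn, tri_m1, hk]; ring
    have h6 : gn n ≠ 0 := by
      by_cases h0 : n = 0
      · subst h0; simp [gn, tri_zero]; linarith [hP.1]
      exact (lt_of_lt_of_le (by have := one_sq_pos n; positivity) (gn_ge h0 h1 h2)).ne'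
    have h8 := (one_sq_pos n).ne'
    simp only [h1, h2, if_false]
    push_cast
    field_simp
    ring
  · have e1 := (LL_eq a b T3 T4 n).2.2.1
    simpa [L1, L2, L3] using e1
  · have e1 := (LL_eq a b T3 T4 n).2.2.2
    simpa [L1, L2, L3] using e1

theorem exists_p {U : Set Y} (hU : U ∈ 𝓝 (y0, (1 : ℝ), nu0, (0 : ℝ))) :
    ∃ p ∈ U, Psi p = 0 ∧ 0 < p.2.2.2 :=
  graves Psi cd_Psi L0 L1 L2 L3 l0 l1 l2 l3 Psi_zero y0 nu0 hz surj hU

end Pool.Agent.H.Wien
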