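import Mathlib
import Pool.Agent.H.MP_7235ad_an.Surj
set_option autoImplicit false
namespace Pool.Agent.H.Wien
open Filter Topology Complex

noncomputable def d1 (p : Y) : A := J1 p.1.1 + (p.2.1 ^ 2)⁻¹ •
  (J1 (F1 p) - (2 * p.2.1) • J2 p.1.1 - J1 p.1.1)
noncomputable def d2 (p : Y) : A := (p.2.1 ^ 2)⁻¹ • (F1 p - (2 * p.2.1) • d1 p - p.1.1)
noncomputable def k1 (p : Y) : A := J1 (zA p) + (p.2.1 ^ 2)⁻¹ • J1 (F2s p)
noncomputable def k2 (p : Y) : A := (p.2.1 ^ 2)⁻¹ • F2s p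
noncomputable def E1 (p : Y) : A := cv (zA p) (v3 p)
noncomputable def BA (p : Y) : A := rf (sg p.1.1) - c3 • (p1 p.1.1 - p.1.1) -
  p.2.2.2 • cv (rf (sg p.1.1)) (p1 p.1.1 - p.1.1)
noncomputable def E2 (p : Y) : A := cv (zA p) (BA p)
noncomputable def pb : Y := (y0, 1, nu0, 0)

structure Near (p : Y) : Prop where
  k : |p.2.1 - 1| < 1 / 100
  n : |p.2.2.1 - nu0| < 1 / 1000
  a : p.2.2.2 * ‖p.1.1‖ < 1 / 100
  v : p.2.2.2 * ‖p.1.2.2.1‖ < 1 / 100
  w : p.2.2.2 * ‖p.1.2.2.2‖ < 1 / 100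
  d : p.2.2.2 * ‖d1 p‖ < 1 / 100
  e : p.2.2.2 * ‖k1 p‖ < 1 / 100
  f : ‖E1 p - E1 pb‖ < 1 / 100
  g : ‖E2 p - E2 pb‖ < 1 / 100

theorem near_mem : {p | Near p} ∈ 𝓝 pb := by
  have ci : ContinuousAt (fun p : Y => (p.2.1 ^ 2)⁻¹) pb :=
    ContinuousAt.inv₀ (by fun_prop) (by simp [pb])
  have c1 : ContinuousAt d1 pb := by
    have h1 : ContDiff ℝ 1 fun p : Y => J1 (F1 p) - (2 * p.2.1) • J2 p.1.1 - J1 p.1.1 := by fun_prop
    have h2 : ContDiff ℝ 1 fun p : Y => J1 p.1.1 := by fun_prop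
    exact h2.continuous.continuousAt.add (ci.smul h1.continuous.continuousAt)
  have c2 : ContinuousAt k1 pb := by
    have h1 : ContDiff ℝ 1 fun p : Y => J1 (F2s p) := by fun_prop
    have h2 : ContDiff ℝ 1 fun p : Y => J1 (zA p) := by fun_prop
    exact h2.continuous.continuousAt.add (ci.smul h1.continuous.continuousAt)
  have c3' : ContinuousAt E1 pb := by
    have : ContDiff ℝ 1 E1 := by unfold E1; fun_prop
    exact this.continuous.continuousAt
  have c4 : ContinuousAt E2 pb := by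
    have : ContDiff ℝ 1 E2 := by unfold E2 BA; fun_prop
    exact this.continuous.continuousAt
  have ce : ContinuousAt (fun p : Y => p.2.2.2) pb := by fun_prop
  have sm : ∀ f : Y → A, ContinuousAt f pb → ∀ᶠ p in 𝓝 pb, p.2.2.2 * ‖f p‖ < 1 / 100 :=
    fun f hf => (ce.mul hf.norm).eventually_lt continuousAt_const (by simp [pb])
  have sm2 : ∀ f : Y → A, ContinuousAt f pb → ∀ᶠ p in 𝓝 pb, ‖f p - f pb‖ < 1 / 100 :=
    fun f hf => (hf.sub continuousAt_const).norm.eventually_lt continuousAt_const (by simp)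
  have h1 : ∀ᶠ p : Y in 𝓝 pb, |p.2.1 - 1| < 1 / 100 :=
    ContinuousAt.eventually_lt (by fun_prop) continuousAt_const (by simp [pb])
  have h2 : ∀ᶠ p : Y in 𝓝 pb, |p.2.2.1 - nu0| < 1 / 1000 :=
    ContinuousAt.eventually_lt (by fun_prop) continuousAt_const (by simp [pb])
  filter_upwards [h1, h2, sm (fun p => p.1.1) (by fun_prop), sm (fun p => p.1.2.2.1) (by fun_prop),
    sm (fun p => p.1.2.2.2) (by fun_prop), sm _ c1, sm _ c2, sm2 _ c3', sm2 _ c4]
    with p a b c d e f g h i using ⟨a, b, c, d, e, f, g, h, i⟩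

theorem exists_near : ∃ p, Near p ∧ Psi p = 0 ∧ 0 < p.2.2.2 := exists_p near_mem

theorem ev_e1 (s : ℝ) : ev s e1 = ex 1 s := ev_single s 1
theorem ev_em (s : ℝ) : ev s em = ex (-1) s := ev_single s (-1)
theorem ex_mul (s : ℝ) : ex 1 s * ex (-1) s = 1 := by rw [← ex_add]; simp [ex]

theorem sum3 (s : ℝ) (x y : ℂ) :
    (ex 1 s + ex (-1) s) * (x * ex 1 s + y * ex (-1) s) +
    (ex 1 (s - th) + ex (-1) (s - th)) * (x * ex 1 (s - th) + y * ex (-1) (s - th)) +
    (ex 1 (s + th) + ex (-1) (s + th)) * (x * ex 1 (s + th) + y * ex (-1) (s + th))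
      = 3 * (x + y) := by
  simp only [sub_eq_add_neg, ex_add', ex_th, ex_nth]
  simp only [tri]
  norm_num
  linear_combination (x * ex 1 s ^ 2 + y * ex (-1) s ^ 2) * (om_sq + omb_sq + om_add) +
    (x + y) * (1 + 2 * om * omb) * ex_mul s + 2 * (x + y) * om_omb

theorem cases1 {P : ℤ → Prop} (h1 : P 1) (h2 : P (-1))
    (h3 : ∀ n, n ≠ 1 → n ≠ -1 → -n ≠ 1 → -n ≠ -1 → P n) (n : ℤ) : P n := by
  by_cases a : n = 1
  · rwa [a]
  by_cases b : n = -1
  · rwa [b]
  exact h3 n a b (by omega) (by omega)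

theorem zA_pb : zA pb = e1 + em := by
  ext n
  induction n using cases1 with
  | h1 => simp [zA, pb, y0, b0_apply, e1_apply, em_apply]; norm_num
  | h2 => simp [zA, pb, y0, b0_apply, e1_apply, em_apply]; norm_num
  | h3 n a b c d => simp [-neg_eq_iff_eq_neg, zA, pb, y0, b0_apply, e1_apply, em_apply, a, b, c, d]

theorem v3_pb : v3 pb = ((9 * M0 - 3) / 2) • e1 + ((9 * M0 - 3) / 2) • em := by
  ext n
  induction n using cases1 with
  | h1 => simp [v3, cub, pb, y0, a0_apply, e1_apply, em_apply]; ring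
  | h2 => simp [v3, cub, pb, y0, a0_apply, e1_apply, em_apply]; ring
  | h3 n a b c d =>
    simp [-neg_eq_iff_eq_neg, v3, cub, pb, y0, a0_apply, e1_apply, em_apply, a, b, c, d]

theorem BA_pb : BA pb = (c3 * (3 * M0 - 2)) • e1 + (-(3 * c3 * M0)) • em := by
  ext n
  induction n using cases1 with
  | h1 => simp [BA, sg, p1, pb, y0, a0_apply, e1_apply, em_apply, tri_one, tri_m1]; ring
  | h2 => simp [BA, sg, p1, pb, y0, a0_apply, e1_apply, em_apply, tri_one, tri_m1]; ring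
  | h3 n a b c d =>
    simp [-neg_eq_iff_eq_neg, BA, sg, p1, pb, y0, a0_apply, e1_apply, em_apply, a, b, c, d]

theorem p0_E1 (s : ℝ) : ev s (p0 (E1 pb)) = (27 * M0 - 9 : ℝ) := by
  simp only [ev_p0, E1, ev_cv]
  simp only [zA_pb, v3_pb, map_add, map_smul, ev_e1, ev_em, real_smul]
  rw [sum3]; push_cast; ring

theorem p0_E2 (s : ℝ) : ev s (p0 (E2 pb)) = (-6 * c3 : ℝ) := by
  simp only [ev_p0, E2, ev_cv]
  simp only [zA_pb, BA_pb, map_add, map_smul, ev_e1, ev_em, real_smul]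
  rw [sum3]; push_cast; ring

theorem p0_close (s : ℝ) {x y : A} {r : ℝ} (h : ‖x - y‖ < 1 / 100) (e : ev s (p0 y) = r) :
    |(ev s (p0 x)).re - r| ≤ 3 / 100 := by
  have h1 : ev s (p0 x) - r = ev s (p0 (x - y)) := by rw [map_sub, map_sub, e]
  have h2 : ‖ev s (p0 (x - y))‖ ≤ 3 / 100 := by
    rw [ev_p0]
    have := norm_add₃_le (a := ev s (x - y)) (b := ev (s - th) (x - y)) (c := ev (s + th) (x - y))
    linarith [ev_le s (x - y), ev_le (s - th) (x - y), ev_le (s + th) (x - y)]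
  have := abs_re_le_norm (ev s (p0 x) - r)
  rw [sub_re, ofReal_re, h1] at this
  linarith

theorem osc_bd {y y1 f : ℝ → ℝ} {η F : ℝ} (h1 : ∀ s, HasDerivAt y (y1 s) s)
    (h2 : ∀ s, HasDerivAt y1 (f s - η ^ 2 * y s) s) (hf : ∀ s, |f s| ≤ F) (s : ℝ)
    (p1 : y (s + th) = y s) (p2 : y1 (s + th) = y1 s) (lo : 3 / 2 ≤ η) (hi : η ≤ 2) :
    |y s| ≤ F := by
  have pi3 := Real.pi_gt_three
  have pi4 := Real.pi_lt_d2
  have hth : 0 ≤ th := by unfold th; positivity
  have hd : ∀ τ, HasDerivAt (fun τ => y1 τ * Real.cos (η * (τ - s - th / 2)) +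
      η * y τ * Real.sin (η * (τ - s - th / 2))) (f τ * Real.cos (η * (τ - s - th / 2))) τ :=
    fun τ => by
      have a := ((((hasDerivAt_id' τ).sub_const s).sub_const (th / 2)).const_mul η)
      refine (((h2 τ).fun_mul a.cos).fun_add (((h1 τ).const_mul η).fun_mul a.sin)).congr_deriv ?_
      ring
  have := norm_image_sub_le_of_norm_deriv_le_segment' (a := s) (b := s + th) (C := F)
    (fun τ _ => (hd τ).hasDerivWithinAt) (fun τ _ => by
      rw [Real.norm_eq_abs, abs_mul]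
      exact (mul_le_of_le_one_right (abs_nonneg _) (Real.abs_cos_le_one _)).trans (hf τ))
    (s + th) ⟨by linarith, le_rfl⟩
  have e1 : η * (s + th - s - th / 2) = η * (th / 2) := by ring
  have e2 : η * (s - s - th / 2) = -(η * (th / 2)) := by ring
  simp only [e1, e2, p1, p2, Real.cos_neg, Real.sin_neg] at this
  have e3 : y1 s * Real.cos (η * (th / 2)) + η * y s * Real.sin (η * (th / 2)) -
      (y1 s * Real.cos (η * (th / 2)) + η * y s * -Real.sin (η * (th / 2))) =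
      (2 * η * Real.sin (η * (th / 2))) * y s := by ring
  have h3 : 8 / 10 ≤ Real.sin (η * (th / 2)) := by
    rw [← Real.cos_pi_div_two_sub]
    refine le_trans ?_ Real.one_sub_sq_div_two_le_cos
    have a1 : Real.pi / 2 - η * (th / 2) ≤ 0 := by unfold th; nlinarith
    have a2 : -(6 / 10) ≤ Real.pi / 2 - η * (th / 2) := by unfold th; nlinarith
    nlinarith
  have h4 : 24 / 10 ≤ 2 * η * Real.sin (η * (th / 2)) := by nlinarith
  rw [e3, Real.norm_eq_abs, abs_mul, abs_of_pos (by linarith)] at this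
  have h5 : 0 ≤ F := (abs_nonneg _).trans (hf 0)
  have h6 : s + th - s ≤ 21 / 10 := by unfold th; linarith
  have := abs_nonneg (y s)
  nlinarith

theorem real_of_sq {x : ℂ} {r k : ℝ} (hk : 0 < k) (h : x ^ 2 * r = k) (hx : 0 < x.re) :
    x = (x.re : ℂ) := by
  have h1 := congrArg Complex.re h
  have h2 := congrArg Complex.im h
  simp [sq] at h1 h2
  have h3 : r ≠ 0 := by rintro rfl; simp at h1; linarith
  have h4 : x.im = 0 := by
    rcases h2 with h2 | h2
    · nlinarith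
    · exact absurd h2 h3
  exact Complex.ext (by simp) (by simp [h4])

end Pool.Agent.H.Wien
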