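import Mathlib
import Pool.Agent.H.MP_7235ad_an.Near
set_option autoImplicit false
namespace Pool.Agent.H.Wien
open Filter Topology Complex ComplexConjugate

structure Orb (κ ν : ℝ) (u u1 u2 : ℝ → ℂ) (ζ ζ1 ζ2 V W : ℝ → ℝ) : Prop where
  n0 : 0 < ν
  n1 : ν < 1
  du : ∀ s, HasDerivAt u (u1 s) s
  du1 : ∀ s, HasDerivAt u1 (u2 s) s
  dz : ∀ s, HasDerivAt ζ (ζ1 s) s
  dz1 : ∀ s, HasDerivAt ζ1 (ζ2 s) s
  pu : ∀ s, u (s + 2 * Real.pi) = u s
  pz : ∀ s, ζ (s + 2 * Real.pi) = ζ s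
  V0 : ∀ s, 9 / 10 ≤ V s
  W0 : ∀ s, 9 / 10 ≤ W s
  hV : ∀ s, V s ^ 2 * (‖u s‖ ^ 2 + ζ s ^ 2) = 1
  hW : ∀ s, W s ^ 2 * (‖om * u (s - th) - omb * u (s + th)‖ ^ 2 + (ζ (s - th) - ζ (s + th)) ^ 2) = 3
  eq1 : ∀ s, (κ : ℂ) ^ 2 * u2 s + 2 * I * κ * u1 s - u s = -(1 - ν) * (u s * V s ^ 3)
    - c3 * ν * (u s * V s ^ 3 + om * (u (s - th) * V (s - th) ^ 3)
      + omb * (u (s + th) * V (s + th) ^ 3))
    + ν / 3 * (om * ((om * u (s - th - th) - omb * u (s - th + th)) * W (s - th) ^ 3)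
      - omb * ((om * u (s + th - th) - omb * u (s + th + th)) * W (s + th) ^ 3))
  eq2 : ∀ s, κ ^ 2 * ζ2 s = -(1 - ν) * (ζ s * V s ^ 3)
    - c3 * ν * (ζ s * V s ^ 3 + ζ (s - th) * V (s - th) ^ 3 + ζ (s + th) * V (s + th) ^ 3)
    + ν / 3 * ((ζ (s - th - th) - ζ (s - th + th)) * W (s - th) ^ 3
      - (ζ (s + th - th) - ζ (s + th + th)) * W (s + th) ^ 3)
  vel : ∀ s, ‖I * u s + κ * u1 s‖ ^ 2 + (κ * ζ1 s) ^ 2 ≤ 3 / 2
  det : ∀ s, ζ s * (conj (om * u (s - th)) * (omb * u (s + th))).im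
    + ζ (s - th) * (conj (om * u (s - th - th)) * (omb * u (s - th + th))).im
    + ζ (s + th) * (conj (om * u (s + th - th)) * (omb * u (s + th + th))).im < 0

section
variable (p : Y)
noncomputable def uF (s : ℝ) : ℂ := 1 + p.2.2.2 * ev s p.1.1
noncomputable def zF (s : ℝ) : ℝ := p.2.2.2 * (ev s (zA p)).re
noncomputable def VF (s : ℝ) : ℝ := 1 + p.2.2.2 * (ev s p.1.2.2.1).re
noncomputable def WF (s : ℝ) : ℝ := 1 + p.2.2.2 * (ev s p.1.2.2.2).re

theorem rf_zA : rf (zA p) = zA p := by ext n; simp [zA]; ring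

theorem zF_c (s : ℝ) : (zF p s : ℂ) = p.2.2.2 * ev s (zA p) := by
  have h : conj (ev s (zA p)) = ev s (zA p) := by rw [← ev_rf, rf_zA]
  rw [zF, ofReal_mul, conj_eq_iff_re.1 h]

theorem dF (s : ℝ) : om * uF p (s - th) - omb * uF p (s + th) =
    I * (c3 + p.2.2.2 * ev s (sg p.1.1)) := by
  unfold uF
  linear_combination om_sub - p.2.2.2 * ev_sg p.1.1 s

theorem eF (s : ℝ) : (zF p (s - th) : ℂ) - zF p (s + th) = -I * (p.2.2.2 * ev s (ta (zA p))) := by
  rw [zF_c, zF_c]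
  linear_combination -p.2.2.2 * ev_ta (zA p) s

theorem ev_sqr (e : ℝ) (v : A) (s : ℝ) : 1 + e * ev s (sqr e v) = (1 + e * ev s v) ^ 2 := by
  simp only [sqr, map_add, map_smul, ev_cv, real_smul]; push_cast; ring

theorem ev_cub (e : ℝ) (v : A) (s : ℝ) : 1 + e * ev s (cub e v) = (1 + e * ev s v) ^ 3 := by
  simp only [cub, map_add, map_smul, ev_cv, real_smul]; push_cast; ring

theorem re_lo {e : ℝ} {v : A} (he : 0 < e) (h : e * ‖v‖ < 1 / 100) (s : ℝ) :
    9 / 10 ≤ 1 + e * (ev s v).re := by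
  have h1 := (abs_le.1 ((abs_re_le_norm (ev s v)).trans (ev_le s v))).1
  nlinarith

end

section
variable {p : Y} (N : Near p) (hp : Psi p = 0) (he : 0 < p.2.2.2)

include hp in
theorem V_eq (s : ℝ) :
    (1 + p.2.2.2 * ev s p.1.2.2.1) ^ 2 * ((‖uF p s‖ ^ 2 + zF p s ^ 2 : ℝ) : ℂ) = (1 : ℝ) := by
  have h := congrArg (fun x : X4 => ev s x.2.2.1) hp
  have e : (1 : ℂ) + p.2.2.2 * ev s (rA p) = ((‖uF p s‖ ^ 2 + zF p s ^ 2 : ℝ) : ℂ) := by
    push_cast
    rw [← mul_conj', zF_c]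
    simp only [rA, uF, map_add, map_smul, ev_cv, ev_rf, real_smul, map_mul, conj_ofReal, map_one]
    ring
  simp only [Psi, map_add, map_smul, ev_cv, real_smul, Prod.snd_zero, Prod.fst_zero,
    map_zero] at h
  rw [← e, ← ev_sqr]
  push_cast
  linear_combination p.2.2.2 * h

include hp in
theorem W_eq (s : ℝ) : (1 + p.2.2.2 * ev s p.1.2.2.2) ^ 2 *
    ((‖om * uF p (s - th) - omb * uF p (s + th)‖ ^ 2 + (zF p (s - th) - zF p (s + th)) ^ 2 : ℝ) : ℂ)
      = (3 : ℝ) := by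
  have h := congrArg (fun x : X4 => ev s x.2.2.2) hp
  have c : (c3 : ℂ) ^ 2 = 3 := by exact_mod_cast c3_sq
  have e : (3 : ℂ) + p.2.2.2 * ev s (sA p) = ((‖om * uF p (s - th) - omb * uF p (s + th)‖ ^ 2
      + (zF p (s - th) - zF p (s + th)) ^ 2 : ℝ) : ℂ) := by
    push_cast
    rw [← mul_conj', eF, dF]
    simp only [sA, map_add, map_sub, map_smul, ev_cv, ev_rf, real_smul, map_mul, conj_ofReal,
      conj_I]
    linear_combination (-1) * c + ((c3 + p.2.2.2 * ev s (sg p.1.1)) *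
      (c3 + p.2.2.2 * conj (ev s (sg p.1.1))) - (p.2.2.2 * ev s (ta (zA p))) ^ 2) * I_mul_I
  simp only [Psi, map_add, map_smul, ev_cv, real_smul, Prod.snd_zero, map_zero] at h
  rw [← e, ← ev_sqr]
  push_cast at h ⊢
  linear_combination p.2.2.2 * h

include N hp he in
theorem VF_c (s : ℝ) : (VF p s : ℂ) = 1 + p.2.2.2 * ev s p.1.2.2.1 := by
  have h := re_lo he N.v s
  rw [real_of_sq one_pos (V_eq hp s) (by simp; linarith)]
  simp [VF]

include N hp he in
theorem WF_c (s : ℝ) : (WF p s : ℂ) = 1 + p.2.2.2 * ev s p.1.2.2.2 := by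
  have h := re_lo he N.w s
  rw [real_of_sq three_pos (W_eq hp s) (by simp; linarith)]
  simp [WF]

include N hp he in
theorem g_eq (s : ℝ) : uF p s * VF p s ^ 3 = 1 + p.2.2.2 * ev s (gA p) := by
  rw [VF_c N hp he, ← ev_cub]
  simp only [gA, v3, uF, map_add, map_smul, ev_cv, real_smul]; ring

include N hp he in
theorem h_eq (s : ℝ) : (zF p s : ℂ) * VF p s ^ 3 = p.2.2.2 * ev s (hA p) := by
  rw [VF_c N hp he, ← ev_cub, zF_c]
  simp only [hA, v3, map_add, map_smul, ev_cv, real_smul]; ring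

include N hp he in
theorem E_eq (s : ℝ) : (om * uF p (s - th) - omb * uF p (s + th)) * WF p s ^ 3 =
    I * (c3 + p.2.2.2 * ev s (EA p)) := by
  rw [WF_c N hp he, ← ev_cub, dF]
  simp only [EA, w3, map_add, map_smul, ev_cv, real_smul]; ring

include N hp he in
theorem H_eq (s : ℝ) : ((zF p (s - th) : ℂ) - zF p (s + th)) * WF p s ^ 3 =
    -I * (p.2.2.2 * ev s (HA p)) := by
  rw [WF_c N hp he, ← ev_cub, eF]
  simp only [HA, w3, map_add, map_smul, ev_cv, real_smul]; ring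

include N in
theorem k_ne : p.2.1 ≠ 0 := by have := (abs_lt.1 N.k).1; linarith

include hp in
theorem mode1 (n : ℤ) : F1 p n = (p.2.1 * n + 1) ^ 2 * p.1.1 n := by
  have h := congrArg (fun x : X4 => x.1 n) hp
  have h0 := (one_sq_pos n).ne'
  simp [Psi, J0, J1, J2] at h
  field_simp at h
  linear_combination -h

include hp in
theorem mode2 (n : ℤ) : F2s p n = p.2.1 ^ 2 * n ^ 2 * zA p n := by
  have h := congrArg (fun x : X4 => x.2.1 n) hp
  have h' := congrArg (fun x : X4 => x.2.1 (-n)) hp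
  have h0 := (one_sq_pos n).ne'
  have e : F2s p (-n) = F2s p n := by simp [F2s]; ring
  simp [Psi, J0, J2, zA, e] at h h' ⊢
  field_simp at h h'
  linear_combination (-1 / 2) * h - (1 / 2) * h'

include N hp in
theorem d1_eq (n : ℤ) : d1 p n = n * p.1.1 n := by
  have h0 := (one_sq_pos n).ne'
  have := k_ne N
  simp [d1, J1, J2, mode1 hp]
  field_simp
  ring

include N hp in
theorem d2_eq (n : ℤ) : d2 p n = n * d1 p n := by
  have := k_ne N
  simp [d2, d1_eq N hp, mode1 hp]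
  field_simp
  ring

include N hp in
theorem k1_eq (n : ℤ) : k1 p n = n * zA p n := by
  have h0 := (one_sq_pos n).ne'
  have := k_ne N
  simp [k1, J1, mode2 hp]
  field_simp

include N hp in
theorem k2_eq (n : ℤ) : k2 p n = n * k1 p n := by
  have := k_ne N
  simp [k2, k1_eq N hp, mode2 hp]
  field_simp

theorem dre {f : ℝ → ℂ} {z : ℂ} {s : ℝ} (h : HasDerivAt f z s) :
    HasDerivAt (fun s => (f s).re) z.re s :=
  reCLM.hasFDerivAt.comp_hasDerivAt s h

theorem F2s_re (p : Y) (s : ℝ) : (ev s (F2s p)).re = (ev s (F2 p)).re := by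
  simp only [F2s, map_smul, map_add, ev_rf, real_smul]
  simp; ring

theorem p0_F2s (p : Y) (s : ℝ) : (ev s (p0 (F2s p))).re = (1 - p.2.2.1 + 3 * c3 * p.2.2.1) *
    ((ev s (p0 (zA p))).re + p.2.2.2 * (ev s (p0 (E1 p))).re) := by
  have e : p0 (F2 p) = (1 - p.2.2.1 + 3 * c3 * p.2.2.1) • (p0 (zA p) + p.2.2.2 • p0 (E1 p)) := by
    ext n
    simp [F2, p0, ta, hA, E1]
    rcases tri_cases n with ⟨-, h⟩ | ⟨-, h⟩ | ⟨-, h⟩ <;> simp only [h] <;> ring
  have e2 : (ev s (p0 (F2s p))).re = (ev s (p0 (F2 p))).re := by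
    simp only [ev_p0, add_re, F2s_re]
  rw [e2, e]
  simp only [map_smul, map_add, real_smul]
  simp

theorem p0_per (a : A) (s : ℝ) : ev (s + th) (p0 a) = ev s (p0 a) := by
  have e : s + th + th = s - th + 2 * Real.pi := by unfold th; ring
  rw [ev_p0, ev_p0, e, ev_per, add_sub_cancel_right]; ring

include N hp he in
theorem Z_bd (s : ℝ) : |(ev s (p0 (zA p))).re + p.2.2.2 * (27 * M0 - 9)| ≤ p.2.2.2 * (12 / 100) := by
  set P := 1 - p.2.2.1 + 3 * c3 * p.2.2.1 with hP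
  have hk := abs_lt.1 N.k
  have hn := abs_lt.1 N.n
  have P1 : 37 / 10 ≤ P ∧ P ≤ 376 / 100 := by
    have e : P = P0 + (3 * c3 - 1) * (p.2.2.1 - nu0) := by
      rw [← P0_eq, hP]; unfold nu0; ring
    have := P0_bd
    have := c3_lo
    have := c3_hi
    constructor <;> nlinarith
  have k0 : 0 < p.2.1 := by linarith
  have sq : (√P / p.2.1) ^ 2 = P / p.2.1 ^ 2 := by rw [div_pow, Real.sq_sqrt (by linarith)]
  have q1 : 9 / 4 ≤ P / p.2.1 ^ 2 := by rw [le_div_iff₀ (by positivity)]; nlinarith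
  have q2 : P / p.2.1 ^ 2 ≤ 4 := by rw [div_le_iff₀ (by positivity)]; nlinarith
  have q0 : 0 ≤ √P / p.2.1 := by positivity
  have a1 : ∀ n, p0 (k1 p) n = n * p0 (zA p) n := fun n => by simp [p0, k1_eq N hp]; ring
  have a2 : ∀ n, p0 (k2 p) n = n * p0 (k1 p) n := fun n => by simp [p0, k2_eq N hp]; ring
  refine osc_bd (y := fun s => (ev s (p0 (zA p))).re + p.2.2.2 * (27 * M0 - 9))
    (y1 := fun s => (I * ev s (p0 (k1 p))).re) (η := √P / p.2.1)
    (f := fun s => -(P / p.2.1 ^ 2) * p.2.2.2 * ((ev s (p0 (E1 p))).re - (27 * M0 - 9)))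
    (fun s => (dre (ev_deriv a1 s)).add_const _)
    (fun s => (dre ((ev_deriv a2 s).const_mul I)).congr_deriv ?_) (fun s => ?_) s
    (by simp only [p0_per]) (by simp only [p0_per]) (by nlinarith) (by nlinarith)
  · rw [sq, ← mul_assoc, I_mul_I, k2, map_smul, map_smul, real_smul]
    simp only [neg_mul, one_mul, neg_re, re_ofReal_mul, p0_F2s, ← hP]
    field_simp
    ring
  · have := p0_close s N.f (p0_E1 s)
    rw [abs_mul, abs_mul, abs_neg, abs_of_pos he, abs_of_pos (by linarith)]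
    calc _ ≤ 4 * p.2.2.2 * (3 / 100) := by gcongr
      _ = _ := by ring

theorem area (p : Y) (s : ℝ) :
    zF p s * (conj (om * uF p (s - th)) * (omb * uF p (s + th))).im =
      c3 / 2 * (p.2.2.2 * (ev s (zA p)).re) + p.2.2.2 ^ 2 / 2 * (ev s (E2 p)).re := by
  have hS : om * uF p (s - th) + omb * uF p (s + th) =
      -1 + p.2.2.2 * ev s (p1 p.1.1 - p.1.1) := by
    rw [map_sub, ev_p1]; unfold uF; linear_combination om_add
  have hD := dF p s
  have h1 : om * uF p (s - th) = (-1 + p.2.2.2 * ev s (p1 p.1.1 - p.1.1) +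
      I * (c3 + p.2.2.2 * ev s (sg p.1.1))) / 2 := by linear_combination (hS + hD) / 2
  have h2 : omb * uF p (s + th) = (-1 + p.2.2.2 * ev s (p1 p.1.1 - p.1.1) -
      I * (c3 + p.2.2.2 * ev s (sg p.1.1))) / 2 := by linear_combination (hS - hD) / 2
  have h3 : (ev s (zA p)).im = 0 := by
    have h : conj (ev s (zA p)) = ev s (zA p) := by rw [← ev_rf, rf_zA]
    exact conj_eq_iff_im.1 h
  have h4 : ev s (E2 p) = ev s (zA p) * (conj (ev s (sg p.1.1)) - c3 * ev s (p1 p.1.1 - p.1.1)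
      - p.2.2.2 * (conj (ev s (sg p.1.1)) * ev s (p1 p.1.1 - p.1.1))) := by
    rw [E2, ev_cv, BA, map_sub, map_sub, map_smul, map_smul, ev_cv, ev_rf, real_smul, real_smul]
  rw [h1, h2, h4, zF]
  generalize ev s (p1 p.1.1 - p.1.1) = Q
  generalize ev s (sg p.1.1) = R
  simp [h3, map_ofNat]
  ring

include N hp he in
theorem orb : Orb p.2.1 p.2.2.1 (uF p) (fun s => p.2.2.2 * (I * ev s (d1 p)))
    (fun s => p.2.2.2 * (I * (I * ev s (d2 p)))) (zF p) (fun s => p.2.2.2 * (I * ev s (k1 p)).re)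
    (fun s => p.2.2.2 * (I * (I * ev s (k2 p))).re) (VF p) (WF p) where
  n0 := by have := (abs_lt.1 N.n).1; have := M0_bd.2; unfold nu0 at *; linarith
  n1 := by have := (abs_lt.1 N.n).2; have := M0_bd.1; unfold nu0 at *; linarith
  du s := ((ev_deriv (d1_eq N hp) s).const_mul _).const_add 1
  du1 s := ((ev_deriv (d2_eq N hp) s).const_mul I).const_mul _
  dz s := (dre (ev_deriv (k1_eq N hp) s)).const_mul _
  dz1 s := (dre ((ev_deriv (k2_eq N hp) s).const_mul I)).const_mul _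
  pu s := by simp only [uF, ev_per]
  pz s := by simp only [zF, ev_per]
  V0 := re_lo he N.v
  W0 := re_lo he N.w
  hV s := by
    have := V_eq hp s
    rw [← VF_c N hp he] at this
    exact_mod_cast this
  hW s := by
    have := W_eq hp s
    rw [← WF_c N hp he] at this
    exact_mod_cast this
  eq1 s := by
    have k : (p.2.1 : ℂ) ≠ 0 := by exact_mod_cast k_ne N
    have c : (c3 : ℂ) ^ 2 = 3 := by exact_mod_cast c3_sq
    have e : (p.2.1 : ℂ) ^ 2 * ev s (d2 p) = ev s (F1 p) - 2 * p.2.1 * ev s (d1 p) - ev s p.1.1 := by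
      simp only [d2, map_smul, map_sub, real_smul]; push_cast; field_simp
    have f : ev s (F1 p) = (1 - p.2.2.1) * ev s (gA p) + c3 * p.2.2.1 * (ev s (gA p) +
        om * ev (s - th) (gA p) + omb * ev (s + th) (gA p)) + p.2.2.1 / 3 * ev s (sg (EA p)) := by
      simp only [F1, map_add, map_smul, real_smul, ev_p1]; push_cast; ring
    simp only [g_eq N hp he, E_eq N hp he]
    unfold uF
    linear_combination (-p.2.2.2) * e - p.2.2.2 * f + c3 * p.2.2.1 * om_add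
      - p.2.2.1 / 3 * I * c3 * om_sub + p.2.2.1 / 3 * c
      + p.2.2.1 / 3 * p.2.2.2 * I * ev_sg (EA p) s
      + (p.2.1 ^ 2 * p.2.2.2 * ev s (d2 p) + 2 * p.2.1 * p.2.2.2 * ev s (d1 p)
        - p.2.2.1 / 3 * c3 ^ 2 - p.2.2.1 / 3 * p.2.2.2 * ev s (sg (EA p))) * I_mul_I
  eq2 s := by
    have k := k_ne N
    have f : ev s (F2 p) = (1 - p.2.2.1) * ev s (hA p) + c3 * p.2.2.1 * (ev s (hA p) +
        ev (s - th) (hA p) + ev (s + th) (hA p)) + p.2.2.1 / 3 * ev s (ta (HA p)) := by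
      simp only [F2, map_add, map_smul, real_smul, ev_p0]; push_cast; ring
    have e : p.2.1 ^ 2 * (p.2.2.2 * (I * (I * ev s (k2 p))).re) = (-p.2.2.2 * ev s (F2 p)).re := by
      rw [← mul_assoc I, I_mul_I, k2, map_smul, real_smul]
      simp only [neg_mul, one_mul, neg_re, re_ofReal_mul, F2s_re]
      field_simp
    rw [e, ← ofReal_re (_ + _)]
    congr 1
    push_cast
    simp only [h_eq N hp he, H_eq N hp he]
    linear_combination (-p.2.2.2) * f - p.2.2.1 / 3 * p.2.2.2 * I * ev_ta (HA p) s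
      - p.2.2.1 / 3 * p.2.2.2 * ev s (ta (HA p)) * I_mul_I
  vel s := by
    have hk := abs_lt.1 N.k
    have k0 : 0 < p.2.1 := by linarith
    have a1 : ‖I * uF p s‖ ≤ 101 / 100 := by
      rw [norm_mul, norm_I, one_mul, uF]
      refine (norm_add_le _ _).trans ?_
      rw [norm_one, norm_mul, norm_real, Real.norm_of_nonneg he.le]
      nlinarith [N.a, ev_le s p.1.1]
    have a2 : ‖(p.2.1 : ℂ) * (p.2.2.2 * (I * ev s (d1 p)))‖ ≤ 2 / 100 := by
      rw [norm_mul, norm_mul, norm_mul, norm_I, one_mul, norm_real, norm_real,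
        Real.norm_of_nonneg he.le, Real.norm_of_nonneg k0.le]
      have : p.2.2.2 * ‖ev s (d1 p)‖ ≤ 1 / 100 := by nlinarith [N.d, ev_le s (d1 p)]
      have : 0 ≤ p.2.2.2 * ‖ev s (d1 p)‖ := by positivity
      nlinarith
    have a3 : |p.2.1 * (p.2.2.2 * (I * ev s (k1 p)).re)| ≤ 2 / 100 := by
      have b := abs_re_le_norm (I * ev s (k1 p))
      rw [norm_mul, norm_I, one_mul] at b
      rw [abs_mul, abs_mul, abs_of_pos k0, abs_of_pos he]
      have : p.2.2.2 * |(I * ev s (k1 p)).re| ≤ 1 / 100 := by nlinarith [N.e, ev_le s (k1 p)]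
      have : 0 ≤ p.2.2.2 * |(I * ev s (k1 p)).re| := by positivity
      nlinarith
    have a4 := (norm_add_le _ _).trans (add_le_add a1 a2)
    have a5 := pow_le_pow_left₀ (norm_nonneg _) a4 2
    have a6 := pow_le_pow_left₀ (abs_nonneg _) a3 2
    rw [sq_abs] at a6
    linarith
  det s := by
    simp only [area]
    have a1 := (abs_le.1 (Z_bd N hp he s)).2
    have a2 := (abs_le.1 (p0_close s N.g (p0_E2 s))).2
    simp only [ev_p0, add_re] at a1 a2
    have := c3_lo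
    have := c3_hi
    have := M0_bd.1
    have b1 := mul_le_mul_of_nonneg_left a1 (show 0 ≤ c3 / 2 * p.2.2.2 by positivity)
    have b2 := mul_le_mul_of_nonneg_left a2 (show 0 ≤ p.2.2.2 ^ 2 / 2 by positivity)
    have b3 : 0 < p.2.2.2 ^ 2 := by positivity
    have b4 : 0 < c3 * p.2.2.2 ^ 2 := by positivity
    have b5 : 0 ≤ c3 * p.2.2.2 ^ 2 * (27 * M0 - 9) := mul_nonneg b4.le (by linarith)
    nlinarith

end

theorem exists_orb : ∃ κ ν u u1 u2 ζ ζ1 ζ2 V W, Orb κ ν u u1 u2 ζ ζ1 ζ2 V W := by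
  obtain ⟨p, N, hp, he⟩ := exists_near
  exact ⟨_, _, _, _, _, _, _, _, _, _, orb N hp he⟩

end Pool.Agent.H.Wien
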