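import Mathlib
import Pool.Agent.H.MP_7235ad_an.Orb
set_option autoImplicit false
namespace Pool.Agent.H.Wien
open Filter Topology Complex ComplexConjugate

abbrev E3 := EuclideanSpace ℝ (Fin 3)

noncomputable def emb : ℂ × ℝ →L[ℝ] E3 := LinearMap.toContinuousLinearMap
  { toFun := fun x => !₂[x.1.re, x.1.im, x.2]
    map_add' := fun x y => by ext k; fin_cases k <;> simp
    map_smul' := fun c x => by ext k; fin_cases k <;> simp }

theorem emb_sq (z : ℂ) (h : ℝ) : ‖emb (z, h)‖ ^ 2 = ‖z‖ ^ 2 + h ^ 2 := by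
  rw [EuclideanSpace.norm_sq_eq, Fin.sum_univ_three, Complex.sq_norm, normSq_apply]
  simp [emb]; ring

noncomputable def ff (x : E3) : E3 := (1 / ‖x‖ ^ 3) • x

theorem ff_neg (x : E3) : ff (-x) = -ff x := by simp [ff]

theorem inv_norm {x : E3} {V : ℝ} (hV : 0 < V) (h : V ^ 2 * ‖x‖ ^ 2 = 1) : 1 / ‖x‖ = V := by
  have h1 : V * ‖x‖ = 1 := by
    rw [← mul_pow] at h
    exact (pow_eq_one_iff_of_nonneg (by positivity) two_ne_zero).1 h
  have h2 : ‖x‖ ≠ 0 := by rintro e; simp [e] at h1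
  field_simp; linarith

theorem ff_emb {z : ℂ} {h V : ℝ} (e : 1 / ‖emb (z, h)‖ = V) :
    ff (emb (z, h)) = emb (z * V ^ 3, h * V ^ 3) := by
  rw [ff, ← one_div_pow, e, ← map_smul]
  congr 1
  ext
  · simp [mul_comm]
  · simp [mul_comm]

theorem ex_p (t : ℝ) : ex 1 (t + th) = om * ex 1 t := by rw [ex_add', ex_one_th]
theorem ex_m (t : ℝ) : ex 1 (t - th) = omb * ex 1 t := by
  rw [sub_eq_add_neg, ex_add', ex_nth]; simp [tri]

theorem norm_om : ‖om‖ = 1 := by rw [← ex_one_th, norm_ex]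
theorem norm_omb : ‖omb‖ = 1 := by rw [← om_conj, norm_conj, norm_om]
theorem c3_pos : 0 < c3 := by linarith [c3_lo]

namespace Orb
variable {κ ν : ℝ} {u u1 u2 : ℝ → ℂ} {ζ ζ1 ζ2 V W : ℝ → ℝ} (O : Orb κ ν u u1 u2 ζ ζ1 ζ2 V W)
include O

theorem upp (s : ℝ) : u (s + th + th) = u (s - th) := by
  rw [← O.pu (s - th)]; congr 1; unfold th; ring
theorem umm (s : ℝ) : u (s - th - th) = u (s + th) := by
  rw [← O.pu]; congr 1; unfold th; ring
theorem zpp (s : ℝ) : ζ (s + th + th) = ζ (s - th) := by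
  rw [← O.pz (s - th)]; congr 1; unfold th; ring
theorem zmm (s : ℝ) : ζ (s - th - th) = ζ (s + th) := by
  rw [← O.pz]; congr 1; unfold th; ring

omit O in
noncomputable def X (κ : ℝ) (u : ℝ → ℂ) (ζ : ℝ → ℝ) (φ t : ℝ) : E3 :=
  emb (ex 1 (t + φ) * u (κ * t - φ), ζ (κ * t - φ))

theorem Xper (φ t : ℝ) : X κ u ζ (φ + 2 * Real.pi) t = X κ u ζ φ t := by
  have e : ex 1 (t + (φ + 2 * Real.pi)) = ex 1 (t + φ) := by
    rw [← ev_e1, ← ev_e1, ← add_assoc, ev_per]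
  have e2 : κ * t - φ = κ * t - (φ + 2 * Real.pi) + 2 * Real.pi := by ring
  rw [X, X, e, e2, O.pu, O.pz]

omit O in
theorem Xp (φ t : ℝ) : X κ u ζ (φ + th) t =
    emb (ex 1 (t + φ) * (om * u (κ * t - φ - th)), ζ (κ * t - φ - th)) := by
  rw [X, ← add_assoc, ex_p, ← sub_sub]; congr 2; ring

omit O in
theorem Xm (φ t : ℝ) : X κ u ζ (φ - th) t =
    emb (ex 1 (t + φ) * (omb * u (κ * t - φ + th)), ζ (κ * t - φ + th)) := by
  rw [X, ← add_sub_assoc, ex_m, show κ * t - (φ - th) = κ * t - φ + th by ring]; congr 2; ring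

theorem nX {e : ℂ} (he : ‖e‖ = 1) (s : ℝ) : 1 / ‖emb (e * u s, ζ s)‖ = V s :=
  inv_norm (by linarith [O.V0 s]) (by rw [emb_sq, norm_mul, he, one_mul]; exact O.hV s)

theorem nD {e : ℂ} (he : ‖e‖ = 1) (s : ℝ) {σ : ℝ} (hσ : σ ^ 2 = 1) :
    1 / ‖emb (e * (om * u (s - th) - omb * u (s + th)), σ * (ζ (s - th) - ζ (s + th)))‖
      = W s / c3 := by
  have := c3_pos
  refine inv_norm (div_pos (by linarith [O.W0 s]) c3_pos) ?_
  rw [emb_sq, norm_mul, he, one_mul, mul_pow, hσ, one_mul, div_pow, c3_sq]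
  linear_combination (O.hW s) / 3

theorem Dp (φ t : ℝ) : X κ u ζ (φ + th) t - X κ u ζ φ t =
    emb (-(ex 1 (t + φ) * omb) * (om * u (κ * t - φ + th - th) - omb * u (κ * t - φ + th + th)),
      -1 * (ζ (κ * t - φ + th - th) - ζ (κ * t - φ + th + th))) := by
  rw [Xp, X, ← map_sub, O.upp, O.zpp, add_sub_cancel_right]
  congr 1
  ext
  · simp only [Prod.fst_sub]
    linear_combination ex 1 (t + φ) * u (κ * t - φ) * om_omb
      - ex 1 (t + φ) * u (κ * t - φ - th) * omb_sq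
  · simp

theorem Dm (φ t : ℝ) : X κ u ζ (φ - th) t - X κ u ζ φ t =
    emb ((ex 1 (t + φ) * om) * (om * u (κ * t - φ - th - th) - omb * u (κ * t - φ - th + th)),
      1 * (ζ (κ * t - φ - th - th) - ζ (κ * t - φ - th + th))) := by
  rw [Xm, X, ← map_sub, O.umm, O.zmm, sub_add_cancel]
  congr 1
  ext
  · simp only [Prod.fst_sub]
    linear_combination ex 1 (t + φ) * u (κ * t - φ) * om_omb
      - ex 1 (t + φ) * u (κ * t - φ + th) * om_sq
  · simp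

theorem nDp (φ t : ℝ) : 1 / ‖X κ u ζ (φ + th) t - X κ u ζ φ t‖ = W (κ * t - φ + th) / c3 := by
  rw [O.Dp]; exact O.nD (by simp [norm_ex, norm_omb]) _ (by norm_num)

theorem nDm (φ t : ℝ) : 1 / ‖X κ u ζ (φ - th) t - X κ u ζ φ t‖ = W (κ * t - φ - th) / c3 := by
  rw [O.Dm]; exact O.nD (by simp [norm_ex, norm_om]) _ (by norm_num)

omit O in
noncomputable def X1 (κ : ℝ) (u u1 : ℝ → ℂ) (ζ1 : ℝ → ℝ) (φ t : ℝ) : E3 :=
  emb (ex 1 (t + φ) * (I * u (κ * t - φ) + κ * u1 (κ * t - φ)), κ * ζ1 (κ * t - φ))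

omit O in
theorem lin (κ φ t : ℝ) : HasDerivAt (fun t => κ * t - φ) κ t := by
  simpa using ((hasDerivAt_id t).const_mul κ).sub_const φ

theorem dX (φ t : ℝ) : HasDerivAt (X κ u ζ φ) (X1 κ u u1 ζ1 φ t) t := by
  have a := (ex_deriv 1 (t + φ)).comp_add_const t φ
  have b := (O.du (κ * t - φ)).scomp t (lin κ φ t)
  have c := (O.dz (κ * t - φ)).comp t (lin κ φ t)
  refine (emb.hasFDerivAt.comp_hasDerivAt t ((a.mul b).prodMk c)).congr_deriv ?_
  rw [X1]; congr 2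
  · simp; ring
  · ring

theorem dX1 (φ t : ℝ) : HasDerivAt (X1 κ u u1 ζ1 φ)
    (-(1 - ν) • ff (X κ u ζ φ t) - (c3 * ν) • (ff (X κ u ζ φ t) + ff (X κ u ζ (φ + th) t)
      + ff (X κ u ζ (φ - th) t)) + (c3 * ν) • (ff (X κ u ζ (φ + th) t - X κ u ζ φ t)
      + ff (X κ u ζ (φ - th) t - X κ u ζ φ t))) t := by
  have a := (ex_deriv 1 (t + φ)).comp_add_const t φ
  have b := (O.du (κ * t - φ)).scomp t (lin κ φ t)
  have b1 := (O.du1 (κ * t - φ)).scomp t (lin κ φ t)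
  have c := (O.dz1 (κ * t - φ)).comp t (lin κ φ t)
  refine (emb.hasFDerivAt.comp_hasDerivAt t ((a.mul ((b.const_mul I).add
    (b1.const_mul (κ : ℂ)))).prodMk (c.const_mul κ))).congr_deriv ?_
  have n0 := ff_emb (O.nX (norm_ex 1 (t + φ)) (κ * t - φ))
  have n1 := ff_emb (O.nX (e := ex 1 (t + φ) * om) (by simp [norm_ex, norm_om]) (κ * t - φ - th))
  have n2 := ff_emb (O.nX (e := ex 1 (t + φ) * omb) (by simp [norm_ex, norm_omb]) (κ * t - φ + th))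
  have n3 := ff_emb (O.nD (e := -(ex 1 (t + φ) * omb)) (by simp [norm_ex, norm_omb])
    (κ * t - φ + th) (σ := -1) (by norm_num))
  have n4 := ff_emb (O.nD (e := ex 1 (t + φ) * om) (by simp [norm_ex, norm_om])
    (κ * t - φ - th) (σ := 1) (by norm_num))
  rw [mul_assoc] at n1 n2
  rw [O.Dp, O.Dm, Xp, Xm, X, n0, n1, n2, n3, n4]
  simp only [← map_smul, ← map_add, ← map_sub]
  have c0 := c3_pos.ne'
  have c0' : (c3 : ℂ) ≠ 0 := by exact_mod_cast c0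
  have c2 : (c3 : ℂ) ^ 2 = 3 := by exact_mod_cast c3_sq
  have w1 : ∀ x : ℝ, (x / c3) ^ 3 = c3 * x ^ 3 / 9 := fun x => by
    field_simp; linear_combination (-x ^ 3 * (c3 ^ 2 + 3)) * c3_sq
  have w2 : ∀ x : ℝ, ((x / c3 : ℝ) : ℂ) ^ 3 = c3 * x ^ 3 / 9 := fun x => by exact_mod_cast w1 x
  congr 1
  ext
  · simp only [Prod.fst_add, Prod.fst_sub, Prod.smul_fst, real_smul, w2, Function.comp,
      Pi.add_apply]
    push_cast
    linear_combination ex 1 (t + φ) * O.eq1 (κ * t - φ)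
      + ex 1 (t + φ) * u (κ * t - φ) * I_mul_I - ν / 9 * ex 1 (t + φ) *
      (om * ((om * u (κ * t - φ - th - th) - omb * u (κ * t - φ - th + th)) * W (κ * t - φ - th) ^ 3)
      - omb * ((om * u (κ * t - φ + th - th) - omb * u (κ * t - φ + th + th)) *
        W (κ * t - φ + th) ^ 3)) * c2
  · simp only [Prod.snd_add, Prod.snd_sub, Prod.smul_snd, smul_eq_mul, w1]
    linear_combination O.eq2 (κ * t - φ) - ν / 9 *
      ((ζ (κ * t - φ - th - th) - ζ (κ * t - φ - th + th)) * W (κ * t - φ - th) ^ 3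
      - (ζ (κ * t - φ + th - th) - ζ (κ * t - φ + th + th)) * W (κ * t - φ + th) ^ 3) * c3_sq

theorem vX (φ t : ℝ) : ‖X1 κ u u1 ζ1 φ t‖ ^ 2 ≤ 3 / 2 := by
  rw [X1, emb_sq, norm_mul, norm_ex, one_mul]; exact O.vel _

theorem iX (φ t : ℝ) : 9 / 10 ≤ 1 / ‖X κ u ζ φ t‖ := by
  rw [X, O.nX (norm_ex _ _)]; exact O.V0 _

theorem indep (t : ℝ) {a b c : ℝ}
    (h : a • X κ u ζ 0 t + b • X κ u ζ (0 + th) t + c • X κ u ζ (0 - th) t = 0) :
    a = 0 ∧ b = 0 ∧ c = 0 := by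
  have hd := O.det (κ * t - 0)
  rw [O.upp, O.umm, add_sub_cancel_right, sub_add_cancel] at hd
  rw [Xp, Xm, X] at h
  set s := κ * t - 0
  have e1 : conj (om * u (s + th)) * (omb * u s) = conj (omb * u (s + th)) * u s := by
    simp only [map_mul, om_conj, omb_conj]; linear_combination conj (u (s + th)) * u s * omb_sq
  have e2 : conj (om * u s) * (omb * u (s - th)) = conj (u s) * (om * u (s - th)) := by
    simp only [map_mul, om_conj]; linear_combination conj (u s) * u (s - th) * omb_sq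
  rw [e1, e2] at hd
  generalize om * u (s - th) = w1 at h hd
  generalize omb * u (s + th) = w2 at h hd
  generalize u s = w0 at h hd
  have hE : ex 1 (t + 0) ≠ 0 := by rw [← norm_ne_zero_iff, norm_ex]; exact one_ne_zero
  have h0 := congrArg (fun x : E3 => x 0) h
  have h1 := congrArg (fun x : E3 => x 1) h
  have h2 := congrArg (fun x : E3 => x 2) h
  have h3 : ex 1 (t + 0) * (a * w0 + b * w1 + c * w2) = 0 := by
    apply Complex.ext
    · simp [emb] at h0 ⊢; linarith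
    · simp [emb] at h1 ⊢; linarith
  have h4 := (mul_eq_zero.1 h3).resolve_left hE
  have h5 := congrArg Complex.re h4
  have h6 := congrArg Complex.im h4
  simp [emb] at h2 h5 h6 hd
  refine ⟨(mul_eq_zero.1 ?_).resolve_right hd.ne, (mul_eq_zero.1 ?_).resolve_right hd.ne,
    (mul_eq_zero.1 ?_).resolve_right hd.ne⟩
  · linear_combination (w1.re * w2.im - w1.im * w2.re) * h2
      + (ζ (s + th) * w1.im - ζ (s - th) * w2.im) * h5
      + (ζ (s - th) * w2.re - ζ (s + th) * w1.re) * h6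
  · linear_combination (w2.re * w0.im - w2.im * w0.re) * h2
      + (ζ s * w2.im - ζ (s + th) * w0.im) * h5 + (ζ (s + th) * w0.re - ζ s * w2.re) * h6
  · linear_combination (w0.re * w1.im - w0.im * w1.re) * h2
      + (ζ (s - th) * w0.im - ζ s * w1.im) * h5 + (ζ s * w1.re - ζ (s - th) * w0.re) * h6

end Orb

/-- heliocentric data -/
theorem helio : ∃ (M m : ℝ) (x1 x2 x3 y1 y2 y3 : ℝ → E3), 0 < M ∧ 0 < m ∧ M + m / c3 = 1 ∧ ∀ t,
    HasDerivAt x1 (y1 t) t ∧ HasDerivAt x2 (y2 t) t ∧ HasDerivAt x3 (y3 t) t ∧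
    HasDerivAt y1 (-M • ff (x1 t) - m • (ff (x1 t) + ff (x2 t) + ff (x3 t))
      + m • (ff (x2 t - x1 t) + ff (x3 t - x1 t))) t ∧
    HasDerivAt y2 (-M • ff (x2 t) - m • (ff (x2 t) + ff (x3 t) + ff (x1 t))
      + m • (ff (x3 t - x2 t) + ff (x1 t - x2 t))) t ∧
    HasDerivAt y3 (-M • ff (x3 t) - m • (ff (x3 t) + ff (x1 t) + ff (x2 t))
      + m • (ff (x1 t - x3 t) + ff (x2 t - x3 t))) t ∧
    (‖y1 t‖ ^ 2 ≤ 3 / 2 ∧ ‖y2 t‖ ^ 2 ≤ 3 / 2 ∧ ‖y3 t‖ ^ 2 ≤ 3 / 2) ∧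
    (9 / 10 ≤ 1 / ‖x1 t‖ ∧ 9 / 10 ≤ 1 / ‖x2 t‖ ∧ 9 / 10 ≤ 1 / ‖x3 t‖) ∧
    (9 / 10 / c3 ≤ 1 / ‖x2 t - x1 t‖ ∧ 9 / 10 / c3 ≤ 1 / ‖x3 t - x1 t‖ ∧
      9 / 10 / c3 ≤ 1 / ‖x3 t - x2 t‖) ∧
    ∀ a b c : ℝ, a • x1 t + b • x2 t + c • x3 t = 0 → a = 0 ∧ b = 0 ∧ c = 0 := by
  obtain ⟨κ, ν, u, u1, u2, ζ, ζ1, ζ2, V, W, O⟩ := exists_orb
  have c0 := c3_pos
  have q1 : ∀ t, Orb.X κ u ζ (0 + th + th) t = Orb.X κ u ζ (0 - th) t := fun t => by
    rw [← O.Xper (0 - th)]; congr 1; unfold th; ring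
  have q2 : ∀ t, Orb.X κ u ζ (0 - th - th) t = Orb.X κ u ζ (0 + th) t := fun t => by
    rw [← O.Xper]; congr 1; unfold th; ring
  refine ⟨1 - ν, c3 * ν, Orb.X κ u ζ 0, Orb.X κ u ζ (0 + th), Orb.X κ u ζ (0 - th), _, _, _,
    by linarith [O.n1], mul_pos c0 O.n0, by field_simp; ring, fun t => ⟨O.dX _ t, O.dX _ t,
    O.dX _ t, O.dX1 0 t, ?_, ?_, ⟨O.vX _ t, O.vX _ t, O.vX _ t⟩, ⟨O.iX _ t, O.iX _ t, O.iX _ t⟩,
    ⟨?_, ?_, ?_⟩, fun a b c => O.indep t⟩⟩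
  · have := O.dX1 (0 + th) t
    rwa [q1, add_sub_cancel_right] at this
  · have := O.dX1 (0 - th) t
    rwa [q2, sub_add_cancel] at this
  · rw [O.nDp]; gcongr; exact O.W0 _
  · rw [O.nDm]; gcongr; exact O.W0 _
  · rw [← q1, O.nDp]; gcongr; exact O.W0 _

end Pool.Agent.H.Wien
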