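import Mathlib
import Pool.Agent.H.MP_7235ad_an.Body
set_option autoImplicit false
namespace Pool.Agent.H.Wien
open Filter Topology

theorem ff_smul (m : ℝ) (x : E3) : (m / ‖x‖ ^ 3) • x = m • ff x := by
  rw [ff, smul_smul, mul_one_div]

theorem ff_rev (x y : E3) : ff (x - y) = -ff (y - x) := by rw [← ff_neg, neg_sub]

theorem cd2 {V : Type*} [NormedAddCommGroup V] [NormedSpace ℝ V] {q v a : ℝ → V}
    (h1 : ∀ t, HasDerivAt q (v t) t) (h2 : ∀ t, HasDerivAt v (a t) t) (h3 : Continuous a) :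
    ContDiff ℝ 2 q := by
  have e1 : deriv q = v := funext fun t => (h1 t).deriv
  have e2 : deriv v = a := funext fun t => (h2 t).deriv
  refine (contDiff_succ_iff_deriv (n := 1)).2 ⟨fun t => (h1 t).differentiableAt, by simp, ?_⟩
  rw [e1]
  exact contDiff_one_iff_deriv.2 ⟨fun t => (h2 t).differentiableAt, e2 ▸ h3⟩

theorem main : ∃ (m : Fin 4 → ℝ) (q v : Fin 4 → ℝ → E3), (∀ i, 0 < m i) ∧
    (∀ i, ContDiff ℝ 2 (q i)) ∧ (∀ i t, HasDerivAt (q i) (v i t) t) ∧
    (∀ i t, HasDerivAt (v i)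
      (∑ j ∈ Finset.univ.erase i, (m j / ‖q j t - q i t‖ ^ 3) • (q j t - q i t)) t) ∧
    (∀ t i j, i ≠ j → q i t ≠ q j t) ∧ (∀ t, ∑ i, m i • q i t = 0) ∧
    (∀ t, (1 / 2 : ℝ) * ∑ i, m i * ‖v i t‖ ^ 2 < m 0 * m 1 / ‖q 0 t - q 1 t‖ +
      m 0 * m 2 / ‖q 0 t - q 2 t‖ + m 0 * m 3 / ‖q 0 t - q 3 t‖ + m 1 * m 2 / ‖q 1 t - q 2 t‖ +
      m 1 * m 3 / ‖q 1 t - q 3 t‖ + m 2 * m 3 / ‖q 2 t - q 3 t‖) ∧
    (∀ t, AffineIndependent ℝ fun i => q i t) ∧ ∃ R : ℝ, ∀ i t, ‖q i t‖ ≤ R := by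
  obtain ⟨M, m, x1, x2, x3, y1, y2, y3, hM, hm, hs, h⟩ := helio
  have hP : 0 < M + 3 * m := by positivity
  set g : ℝ := -(m / (M + 3 * m)) with hg
  have hgP : g * (M + 3 * m) = -m := by rw [hg]; field_simp
  let q : Fin 4 → ℝ → E3 := fun i t => g • (x1 t + x2 t + x3 t) + ![0, x1 t, x2 t, x3 t] i
  let v : Fin 4 → ℝ → E3 := fun i t => g • (y1 t + y2 t + y3 t) + ![0, y1 t, y2 t, y3 t] i
  let ms : Fin 4 → ℝ := ![M, m, m, m]
  have qd : ∀ i j t, q j t - q i t = ![0, x1 t, x2 t, x3 t] j - ![0, x1 t, x2 t, x3 t] i :=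
    fun i j t => add_sub_add_left_eq_sub _ _ _
  have d1 : ∀ i t, HasDerivAt (q i) (v i t) t := fun i t => by
    obtain ⟨a1, a2, a3, -⟩ := h t
    have b := ((a1.fun_add a2).fun_add a3).fun_const_smul g
    fin_cases i
    · simpa [q, v] using b
    · exact b.fun_add a1
    · exact b.fun_add a2
    · exact b.fun_add a3
  have d2 : ∀ i t, HasDerivAt (v i)
      (∑ j ∈ Finset.univ.erase i, (ms j / ‖q j t - q i t‖ ^ 3) • (q j t - q i t)) t := fun i t => by
    obtain ⟨-, -, -, a1, a2, a3, -⟩ := h t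
    have b := (((a1.fun_add a2).fun_add a3).fun_const_smul g).congr_deriv
      (show _ = m • (ff (x1 t) + ff (x2 t) + ff (x3 t)) by
        rw [ff_rev (x1 t) (x2 t), ff_rev (x1 t) (x3 t), ff_rev (x2 t) (x3 t)]
        linear_combination (norm := module) (-hgP) • (ff (x1 t) + ff (x2 t) + ff (x3 t)))
    rw [Finset.sum_erase _ (by simp), Fin.sum_univ_four]
    simp only [ff_smul, qd]
    have f0 : ff 0 = 0 := by simp [ff]
    fin_cases i
    · refine HasDerivAt.congr_deriv (by simpa [v] using b) ?_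
      simp [ms, f0]
    · refine (b.fun_add a1).congr_deriv ?_
      simp [ms, f0, ff_neg]; module
    · refine (b.fun_add a2).congr_deriv ?_
      simp [ms, f0, ff_neg]; module
    · refine (b.fun_add a3).congr_deriv ?_
      simp [ms, f0, ff_neg]; module
  have ai : ∀ t, AffineIndependent ℝ fun i => q i t := fun t => by
    rw [affineIndependent_iff_of_fintype]
    intro w hw e i
    rw [Finset.weightedVSub_eq_linear_combination _ hw, Fin.sum_univ_four] at e
    rw [Fin.sum_univ_four] at hw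
    have := (h t).2.2.2.2.2.2.2.2.2 (w 1) (w 2) (w 3) (by
      simp only [q, Matrix.cons_val] at e
      linear_combination (norm := module) e - hw • (g • (x1 t + x2 t + x3 t)))
    fin_cases i
    · simp only [Fin.zero_eta]; linarith [this.1, this.2.1, this.2.2]
    · exact this.1
    · exact this.2.1
    · exact this.2.2
  have ne : ∀ t i j, i ≠ j → q i t ≠ q j t := fun t i j hij => (ai t).injective.ne hij
  have cq : ∀ i, Continuous (q i) := fun i =>
    continuous_iff_continuousAt.2 fun t => (d1 i t).continuousAt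
  refine ⟨ms, q, v, fun i => by fin_cases i <;> simp [ms, hM, hm], fun i => cd2 (d1 i) (d2 i) ?_,
    d1, d2, ne, fun t => ?_, fun t => ?_, ai, ‖g‖ * 6 + 2, fun i t => ?_⟩
  · refine continuous_finsetSum _ fun j hj => Continuous.smul (continuous_const.div
      (((cq j).sub (cq i)).norm.pow 3) fun t => pow_ne_zero 3 (norm_ne_zero_iff.2
        (sub_ne_zero.2 (ne t j i (Finset.mem_erase.1 hj).1)))) ((cq j).sub (cq i))
  · rw [Fin.sum_univ_four]
    simp only [q, ms, Matrix.cons_val]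
    linear_combination (norm := module) hgP • (x1 t + x2 t + x3 t)
  · obtain ⟨-, -, -, -, -, -, ⟨a1, a2, a3⟩, ⟨b1, b2, b3⟩, ⟨c1, c2, c3'⟩, -⟩ := h t
    rw [Fin.sum_univ_four]
    simp only [qd, v, ms, Matrix.cons_val, zero_sub, norm_neg, add_zero]
    rw [norm_sub_rev (x1 t) (x2 t), norm_sub_rev (x1 t) (x3 t), norm_sub_rev (x2 t) (x3 t)]
    set z := g • (y1 t + y2 t + y3 t) with hz
    have e : m * (inner ℝ z (y1 t) + inner ℝ z (y2 t) + inner ℝ z (y3 t)) =
        -(M + 3 * m) * ‖z‖ ^ 2 := by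
      rw [← inner_add_right, ← inner_add_right, ← real_inner_self_eq_norm_sq,
        ← real_inner_smul_right, ← real_inner_smul_right]
      congr 1
      rw [hz]
      linear_combination (norm := module) hgP • (y1 t + y2 t + y3 t)
    simp only [norm_add_sq_real, div_eq_mul_one_div (_ * m)]
    have k0 : 0 ≤ (M + 3 * m) * ‖z‖ ^ 2 := by positivity
    have k1 := mul_le_mul_of_nonneg_left (add_le_add (add_le_add a1 a2) a3) hm.le
    have k2 := mul_le_mul_of_nonneg_left (add_le_add (add_le_add b1 b2) b3) (mul_pos hM hm).le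
    have k3 := mul_le_mul_of_nonneg_left (add_le_add (add_le_add c1 c2) c3') (mul_pos hm hm).le
    have k4 : m * m * (9 / 10 / c3 + 9 / 10 / c3 + 9 / 10 / c3) = 27 / 10 * m * (1 - M) := by
      rw [← hs]; ring
    nlinarith
  · obtain ⟨-, -, -, -, -, -, -, ⟨b1, b2, b3⟩, -⟩ := h t
    have k : ∀ x : E3, 9 / 10 ≤ 1 / ‖x‖ → ‖x‖ ≤ 2 := fun x hx => by
      by_contra hn
      have : 1 / ‖x‖ ≤ 1 / 2 := one_div_le_one_div_of_le two_pos (not_le.1 hn).le
      linarith
    have k1 := k _ b1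
    have k2 := k _ b2
    have k3 := k _ b3
    refine (norm_add_le _ _).trans (add_le_add ?_ ?_)
    · rw [norm_smul]
      gcongr
      linarith [norm_add₃_le (a := x1 t) (b := x2 t) (c := x3 t)]
    · fin_cases i <;> simp [k1, k2, k3]

end Pool.Agent.H.Wien
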